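import Mathlib

/-!
Palindromic length (MP_cacb4b_co): definitions and the list of parts.
Positions are cut points; the factor `[a, b)` has the letters `w a, ..., w (b-1)`.
-/

set_option autoImplicit false

namespace Pool.Agent.PalLen

variable {B : Type*}

/-- `w` has the period `d` on `[a, b)` -/
def Per (w : ℤ → B) (d a b : ℤ) : Prop := ∀ i, a ≤ i → i + d < b → w (i + d) = w i

/-- the factor `[a, b)` is a palindrome -/
def Pal (w : ℤ → B) (a b : ℤ) : Prop := ∀ i, a ≤ i → i < b → w (a + b - 1 - i) = w i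

/-- `d` is the smallest period of `[a, b)`, and there are at least two periods -/
structure MinPer (w : ℤ → B) (d a b : ℤ) : Prop where
  pos : 1 ≤ d
  per : Per w d a b
  len : a + 2 * d ≤ b
  min : ∀ q, 1 ≤ q → q < d → ¬ Per w q a b

/-- `[j, e)` is a palindrome without a period `p` with `3 p ≤ e - j` -/
structure Ext (w : ℤ → B) (j e : ℤ) : Prop where
  lt : j < e
  pal : Pal w j e
  ext : ∀ p, 1 ≤ p → 3 * p ≤ e - j → ¬ Per w p j e

/-- thin sets of rank `h` and size `n` -/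
inductive T (w : ℤ → B) : ℕ → ℕ → Set ℤ → Prop
  | point (z : ℤ) : T w 0 1 {z}
  | sub {h n n' : ℕ} {F F' : Set ℤ} : T w h n F → F' ⊆ F → n ≤ n' → T w h n' F'
  | union {h n n' : ℕ} {F F' : Set ℤ} : T w h n F → T w h n' F' → T w h (n + n') (F ∪ F')
  | lift {h n : ℕ} {F : Set ℤ} : T w h n F → T w (h + 1) n F
  | piece {h n : ℕ} {d a b : ℤ} {G : Set ℤ} : MinPer w d a b → G ⊆ Set.Icc a b →
      (∀ z ∈ G, z + d ≤ b → z + d ∈ G) → (∀ z ∈ G, a ≤ z - d → z - d ∈ G) →
      (∀ x, T w h n (G ∩ Set.Icc x (x + d))) → T w (h + 1) n G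

/-- ends of palindromes which start in `F` -/
def E (w : ℤ → B) (F : Set ℤ) : Set ℤ := {e | ∃ j ∈ F, j < e ∧ Pal w j e}

/-- continuation of `d`-periodic segments by multiples of `d` -/
def Sat (w : ℤ → B) (d : ℤ) (Y : Set ℤ) : Set ℤ :=
  {z | ∃ y ∈ Y, ∃ t : ℤ, 0 ≤ t ∧ z = y + t * d ∧ MinPer w d (y - 3 * d) z}

/-- periodic segments are bounded to the right -/
def Bounded (w : ℤ → B) : Prop := ∃ H : ℤ, ∀ d a b, 1 ≤ d → a + 2 * d ≤ b → Per w d a b → b ≤ H

/-- at most `L` external palindromes start at each position -/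
def ExtLe (w : ℤ → B) (L : ℕ) : Prop := ∀ j, {e | Ext w j e}.encard ≤ L

/-- positions reachable from `F` by at most `K` palindromes -/
def Reach (w : ℤ → B) (F : Set ℤ) : ℕ → Set ℤ
  | 0 => F
  | K + 1 => Reach w F K ∪ E w (Reach w F K)

/-- the word `w` restricted to `[0, n)`, with pairwise different new letters outside -/
def cut {A : Type*} (w : ℕ → A) (n : ℕ) (i : ℤ) : A ⊕ ℤ :=
  if 0 ≤ i ∧ i < n then Sum.inl (w i.toNat) else Sum.inr i

/-!
Parts (`w w' : ℤ → B`).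

(A) Basic.lean: periodicity lemmas (Fine-Wilf, gluing, MinPer restricts/extends, translation and
    reflection of Per, Pal, MinPer).

(B) Transfer.lean:
  theorem transfer {ε t : ℤ} (hε : ε = 1 ∨ ε = -1) {h n F} (hT : T w h n F) (a b : ℤ)
    (hw : letters agree: for ε = 1: ∀ i, a ≤ i → i < b → w' (i + t) = w i;
                         for ε = -1: ∀ i, a ≤ i → i < b → w' (t - 1 - i) = w i) :
    T w' h (2 ^ h * n) ((fun z => ε * z + t) '' (F ∩ Set.Icc a b))

(C) Base.lean: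
  theorem base (hB : Bounded w) (hL : ExtLe w L) (j : ℤ) : T w 1 (3 * L) (E w {j})
    (if L = 0 then E w {j} is empty; note that [j, j+1) is always external)

(D) Sat.lean: for a function S : ℕ → ℕ
  theorem sat (hB : Bounded w) {h n Y} (hT : T w h n Y) (d : ℤ) : T w (h + 1) (S h * n) (Sat w d Y)

(E) Step.lean: for a function C : ℕ → ℕ
  theorem step (hB : Bounded w) (hL : ExtLe w L) (h n F) (hT : T w h n F) :
    T w (h + 1) (C h * (L + 1) * n) (E w F)
  theorem reach (hB) (hL) (j) (K) : T w K (D K * (L + 1) ^ K) (Reach w {j} K)   for a function D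

(F) Tree.lean:
  theorem tree {j : ℤ} (m : ℕ) (e : ℕ → ℤ) (he0 : e 0 = j) (hext : ∀ i, 1 ≤ i → i ≤ m → Ext w j (e i))
    (hd : ∀ i, i < m → 2 * (e i - j) < e (i + 1) - j) :
    ∃ X : Finset ℤ, X.card = 2 ^ m ∧ (∀ x ∈ X, j ≤ x ∧ x ≤ e m) ∧
      ∀ h n F, T w h n F → (F ∩ X).encard ≤ n * 12 ^ h
  theorem exists_chain (hj : L ≤ {e | Ext w j e}.encard) : ∃ m e, (as above) ∧ L ≤ 2 * m + 1

(G) Sparse.lean: for u : ℕ → A
  theorem sparse (hu : ¬ ∃ p N : ℕ, 0 < p ∧ ∀ n ≥ N, u (n + p) = u n) (M : ℕ) :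
    ∃ (Z : Finset ℕ), Z.card = M ∧ ∀ n, (∀ z ∈ Z, z ≤ n) → ∀ h m F, T (cut u n) h m F →
      (F ∩ ((↑) '' Z)).encard ≤ m * 2 ^ h

(H) Final.lean: bounded (cut u n); Saarela's lemma; Reach from lists; the frozen statement.
-/

end Pool.Agent.PalLen
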