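import Mathlib
import Pool.Agent.PalLen.Defs

/-!
Periodicity lemmas.
-/

set_option autoImplicit false

namespace Pool.Agent.PalLen

variable {B : Type*} {w w' : ℤ → B} {d p q a b a' b' i j x y : ℤ}

lemma Per.mono (h : Per w d a b) (ha : a ≤ a') (hb : b' ≤ b) : Per w d a' b' :=
  fun i h1 h2 => h i (by omega) (by omega)

lemma Per.triv (h : b ≤ a + d) : Per w d a b := fun i h1 h2 => by omega

/-- steps of a period inside a segment -/
lemma Per.nat (h : Per w d a b) (hd : 0 ≤ d) (n : ℕ) (h1 : a ≤ i) (h2 : i + n * d < b) :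
    w (i + n * d) = w i := by
  induction n with
  | zero => simp
  | succ n ih =>
    push_cast at h2 ⊢
    have h3 : i + (n + 1 : ℤ) * d = i + n * d + d := by ring
    rw [h3] at h2 ⊢
    rw [h (i + n * d) (by nlinarith [Int.natCast_nonneg n]) h2]
    exact ih (by omega)

/-- letters at congruent places of a periodic segment -/
lemma Per.dvd (h : Per w d a b) (hd : 1 ≤ d) (hi : a ≤ i) (hi' : i < b) (hj : a ≤ j)
    (hj' : j < b) (hdvd : d ∣ i - j) : w i = w j := by
  obtain ⟨t, ht⟩ := hdvd
  rcases le_total 0 t with h0 | h0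
  · have := h.nat (by omega) t.toNat hj (i := j) (by
      rw [Int.toNat_of_nonneg h0]; nlinarith)
    rw [Int.toNat_of_nonneg h0, show j + t * d = i by linarith [mul_comm t d]] at this
    exact this
  · have := h.nat (by omega) (-t).toNat hi (i := i) (by
      rw [Int.toNat_of_nonneg (by omega)]; nlinarith)
    rw [Int.toNat_of_nonneg (by omega), show i + -t * d = j by linarith [mul_comm t d]] at this
    exact this.symm

/-- a multiple of a period is a period -/
lemma Per.mul (h : Per w d a b) (hd : 1 ≤ d) (hq : 0 ≤ q) (hdq : d ∣ q) : Per w q a b := by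
  intro i h1 h2
  apply h.dvd hd (by omega) h2 h1 (by omega)
  rwa [add_sub_cancel_left]

/-- Fine and Wilf -/
lemma fineWilf : ∀ n : ℕ, ∀ p q : ℤ, 1 ≤ p → 1 ≤ q → p + q ≤ n → ∀ a b : ℤ, Per w p a b →
    Per w q a b → p + q ≤ b - a → ∃ g, 1 ≤ g ∧ g ∣ p ∧ g ∣ q ∧ Per w g a b := by
  intro n
  induction n with
  | zero => intro p q hp hq h; push_cast at h; omega
  | succ n ih =>
    have main : ∀ p q : ℤ, 1 ≤ p → 1 ≤ q → p + q ≤ (n + 1 : ℕ) → p < q → ∀ a b : ℤ, Per w p a b →
        Per w q a b → p + q ≤ b - a → ∃ g, 1 ≤ g ∧ g ∣ p ∧ g ∣ q ∧ Per w g a b := by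
      intro p q hp hq hn hpq a b h1 h2 hl
      have h3 : Per w (q - p) a b := by
        intro i hi hi'
        by_cases hc : i + q < b
        · rw [← h1 (i + (q - p)) (by omega) (by omega), show i + (q - p) + p = i + q by ring]
          exact h2 i hi hc
        · have e1 := h2 (i - p) (by omega) (by omega)
          have e2 := h1 (i - p) (by omega) (by omega)
          rw [show i - p + q = i + (q - p) by ring] at e1
          rw [show i - p + p = i by ring] at e2
          rw [e1, e2]
      obtain ⟨g, g1, g2, g3, g4⟩ := ih p (q - p) hp (by omega) (by push_cast at hn; omega) a b h1 h3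
        (by omega)
      refine ⟨g, g1, g2, ?_, g4⟩
      have := dvd_add g3 g2
      rwa [sub_add_cancel] at this
    intro p q hp hq hn a b h1 h2 hl
    rcases lt_trichotomy p q with h | h | h
    · exact main p q hp hq hn h a b h1 h2 hl
    · subst h
      exact ⟨p, hp, dvd_rfl, dvd_rfl, h1⟩
    · obtain ⟨g, g1, g2, g3, g4⟩ := main q p hq hp (by omega) h a b h2 h1 (by omega)
      exact ⟨g, g1, g3, g2, g4⟩

lemma Per.gcd (hp : Per w p a b) (hq : Per w q a b) (h1 : 1 ≤ p) (h2 : 1 ≤ q)
    (hl : a + p + q ≤ b) : ∃ g, 1 ≤ g ∧ g ∣ p ∧ g ∣ q ∧ Per w g a b :=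
  fineWilf (p + q).toNat p q h1 h2 (by omega) a b hp hq (by omega)

/-- two overlapping periodic segments -/
lemma Per.glue (h : Per w d a b) (h' : Per w d a' b') (h2 : a' + d ≤ b) :
    Per w d a b' := by
  intro i hi hi'
  by_cases hc : i + d < b
  · exact h i hi hc
  · exact h' i (by omega) hi'

/-- a short period of a long enough part is a period of the segment -/
lemma Per.ext_dvd {g : ℤ} (h : Per w d a b) (hd : 1 ≤ d) (hg : 1 ≤ g) (hgd : g ∣ d)
    (h' : Per w g a' b') (ha : a ≤ a') (hb : b' ≤ b) (hl : a' + 2 * d ≤ b') : Per w g a b := by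
  intro i h1 h2
  have hgl : g ≤ d := Int.le_of_dvd (by omega) hgd
  -- move `i` into `[a', a' + d)`
  set i' := a' + (i - a') % d with hi'
  have m1 := Int.emod_nonneg (i - a') (show d ≠ 0 by omega)
  have m2 := Int.emod_lt_of_pos (i - a') (show 0 < d by omega)
  have hdv : d ∣ i - i' := by
    rw [hi']
    refine ⟨(i - a') / d, ?_⟩
    have := Int.emod_add_mul_ediv (i - a') d
    linarith
  rw [h.dvd hd (i := i) (j := i') h1 (by omega) (by omega) (by omega) hdv,
    h.dvd hd (i := i + g) (j := i' + g) (by omega) h2 (by omega) (by omega) (by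
      rwa [show i + g - (i' + g) = i - i' by ring])]
  exact h' i' (by omega) (by omega)

/-! ### Smallest periods -/

lemma MinPer.dvd_of_per (h : MinPer w d a b) (hq : Per w q a b) (h1 : 1 ≤ q)
    (hl : a + d + q ≤ b) : d ∣ q := by
  obtain ⟨g, g1, g2, g3, g4⟩ := h.per.gcd hq h.pos h1 hl
  have : g ≤ d := Int.le_of_dvd (by have := h.pos; omega) g2
  rcases lt_or_eq_of_le this with hlt | heq
  · exact absurd g4 (h.min g g1 hlt)
  · rwa [← heq]

lemma MinPer.restrict (h : MinPer w d a b) (ha : a ≤ a') (hb : b' ≤ b) (hl : a' + 2 * d ≤ b') :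
    MinPer w d a' b' := by
  have hd := h.pos
  refine ⟨hd, h.per.mono ha hb, hl, fun q h1 h2 hq => ?_⟩
  obtain ⟨g, g1, g2, g3, g4⟩ := (h.per.mono ha hb).gcd hq hd h1 (by omega)
  have hg : g ≤ q := Int.le_of_dvd (by omega) g3
  exact h.min g g1 (by omega) (h.per.ext_dvd hd g1 g2 g4 ha hb hl)

lemma MinPer.extend (h : MinPer w d a b) (h' : Per w d a' b') (ha : a' ≤ a) (hb : b ≤ b') :
    MinPer w d a' b' :=
  ⟨h.pos, h', by have := h.len; omega, fun q h1 h2 hq => h.min q h1 h2 (hq.mono ha hb)⟩

/-- two smallest periods with a long common segment are equal -/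
lemma MinPer.eq_of_common (h : MinPer w d a b) (h' : MinPer w q a' b') (ha : a ≤ x) (ha' : a' ≤ x)
    (hb : y ≤ b) (hb' : y ≤ b') (h1 : x + 2 * d ≤ y) (h2 : x + 2 * q ≤ y) : d = q := by
  have e1 := h.restrict ha hb h1
  have e2 := h'.restrict ha' hb' h2
  rcases lt_trichotomy d q with hlt | heq | hgt
  · exact absurd e1.per (e2.min d e1.pos hlt)
  · exact heq
  · exact absurd e2.per (e1.min q e2.pos hgt)

/-- extension of the smallest period to the union of two overlapping segments -/
lemma MinPer.glue (h : MinPer w d a b) (h' : Per w d a' b') (h2 : a' + d ≤ b) (h3 : b ≤ b') :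
    MinPer w d a b' := h.extend (h.per.glue h' h2) le_rfl h3

/-! ### Translations and reflections -/

lemma Per.trans {t : ℤ} (hw : ∀ i, a ≤ i → i < b → w' (i + t) = w i) (h : Per w d a b)
    (hd : 0 ≤ d) : Per w' d (a + t) (b + t) := by
  intro i h1 h2
  have e1 := hw (i - t) (by omega) (by omega)
  have e2 := hw (i + d - t) (by omega) (by omega)
  rw [sub_add_cancel] at e1 e2
  rw [e1, e2, show i + d - t = i - t + d by ring]
  exact h (i - t) (by omega) (by omega)

lemma Per.refl {t : ℤ} (hw : ∀ i, a ≤ i → i < b → w' (t - 1 - i) = w i) (h : Per w d a b)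
    (hd : 0 ≤ d) : Per w' d (t - b) (t - a) := by
  intro i h1 h2
  have e1 := hw (t - 1 - i) (by omega) (by omega)
  have e2 := hw (t - 1 - i - d) (by omega) (by omega)
  rw [show t - 1 - (t - 1 - i) = i by ring] at e1
  rw [show t - 1 - (t - 1 - i - d) = i + d by ring] at e2
  rw [e1, e2]
  have e3 := h (t - 1 - i - d) (by omega) (by omega)
  rw [sub_add_cancel] at e3
  exact e3.symm

lemma MinPer.trans {t : ℤ} (hw : ∀ i, a ≤ i → i < b → w' (i + t) = w i) (h : MinPer w d a b) :
    MinPer w' d (a + t) (b + t) := by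
  have hd := h.pos
  refine ⟨hd, h.per.trans hw (by omega), by have := h.len; omega, fun q h1 h2 hq => ?_⟩
  have := hq.trans (w' := w) (t := -t) (fun i hi hi' => by
    have := hw (i + -t) (by omega) (by omega)
    rw [neg_add_cancel_right] at this
    exact this.symm) (by omega)
  rw [add_neg_cancel_right, add_neg_cancel_right] at this
  exact h.min q h1 h2 this

lemma MinPer.refl {t : ℤ} (hw : ∀ i, a ≤ i → i < b → w' (t - 1 - i) = w i)
    (h : MinPer w d a b) : MinPer w' d (t - b) (t - a) := by
  have hd := h.pos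
  refine ⟨hd, h.per.refl hw (by omega), by have := h.len; omega, fun q h1 h2 hq => ?_⟩
  have := hq.refl (w' := w) (t := t) (fun i hi hi' => by
    have := hw (t - 1 - i) (by omega) (by omega)
    rw [show t - 1 - (t - 1 - i) = i by ring] at this
    exact this.symm) (by omega)
  rw [sub_sub_cancel, sub_sub_cancel] at this
  exact h.min q h1 h2 this

lemma Pal.trans {t : ℤ} (hw : ∀ i, a ≤ i → i < b → w' (i + t) = w i) (h : Pal w a b) :
    Pal w' (a + t) (b + t) := by
  intro i h1 h2
  have e1 := hw (i - t) (by omega) (by omega)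
  have e2 := hw (a + b - 1 - (i - t)) (by omega) (by omega)
  rw [sub_add_cancel] at e1
  rw [show a + b - 1 - (i - t) + t = a + t + (b + t) - 1 - i by ring] at e2
  rw [e1, e2]
  exact h _ (by omega) (by omega)

/-- translation inside a periodic segment -/
lemma Pal.shift (h : Pal w x y) (hp : Per w d a b) (hd : 1 ≤ d) {t : ℤ} (h1 : a ≤ x) (h2 : y ≤ b)
    (h3 : a ≤ x + t * d) (h4 : y + t * d ≤ b) : Pal w (x + t * d) (y + t * d) :=
  h.trans fun i hi hi' => hp.dvd hd (by omega) (by omega) (by omega) (by omega)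
    (by rw [add_sub_cancel_left]; exact Dvd.intro_left t rfl)

lemma MinPer.shift {D : ℤ} (h : MinPer w D x y) (hp : Per w d a b) (hd : 1 ≤ d) {t : ℤ}
    (h1 : a ≤ x) (h2 : y ≤ b) (h3 : a ≤ x + t * d) (h4 : y + t * d ≤ b) :
    MinPer w D (x + t * d) (y + t * d) :=
  h.trans fun i hi hi' => hp.dvd hd (by omega) (by omega) (by omega) (by omega)
    (by rw [add_sub_cancel_left]; exact Dvd.intro_left t rfl)

/-! ### Palindromes -/

lemma Pal.inner (h : Pal w a b) (t : ℤ) (ht : 0 ≤ t) : Pal w (a + t) (b - t) := by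
  intro i h1 h2
  have := h i (by omega) (by omega)
  rwa [show a + t + (b - t) - 1 - i = a + b - 1 - i by ring]

/-- the mirror image of a periodic segment inside a palindrome -/
lemma Pal.per (h : Pal w a b) (hp : Per w d x y) (hd : 0 ≤ d) (ha : a ≤ x) (hb : y ≤ b) :
    Per w d (a + b - y) (a + b - x) :=
  hp.refl (fun i hi hi' => h i (by omega) (by omega)) hd

lemma Pal.minPer (h : Pal w a b) (hp : MinPer w d x y) (ha : a ≤ x) (hb : y ≤ b) :
    MinPer w d (a + b - y) (a + b - x) :=
  hp.refl (fun i hi hi' => h i (by omega) (by omega))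

/-- two palindromes with the same start -/
lemma Pal.border (h : Pal w j x) (h' : Pal w j y) (hxy : x ≤ y) : Per w (y - x) j y := by
  intro i h1 h2
  have e1 := h i h1 (by omega)
  have e2 := h' (j + x - 1 - i) (by omega) (by omega)
  rw [show j + y - 1 - (j + x - 1 - i) = i + (y - x) by ring] at e2
  rw [e2, e1]

/-- removing a period from a palindrome -/
lemma Pal.sub_per (h : Pal w j x) (hp : Per w d j x) (hd : 0 ≤ d) : Pal w j (x - d) := by
  intro i h1 h2
  have e1 := h i h1 (by omega)
  have e2 := hp (j + x - d - 1 - i) (by omega) (by omega)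
  rw [show j + x - d - 1 - i + d = j + x - 1 - i by ring] at e2
  rw [show j + (x - d) - 1 - i = j + x - d - 1 - i by ring, ← e2, e1]

/-- removing several periods from a palindrome -/
lemma Pal.sub_mul (h : Pal w j x) (hp : Per w d j x) (hd : 1 ≤ d) {t : ℤ} (ht : 0 ≤ t) :
    Pal w j (x - t * d) :=
  h.sub_per (hp.mul hd (by positivity) (Dvd.intro_left t rfl)) (by positivity)

end Pool.Agent.PalLen
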