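import Mathlib
import Pool.Agent.PalLen.Basic

/-!
Thin sets and local isometries.
-/

set_option autoImplicit false

namespace Pool.Agent.PalLen

variable {B : Type*} {w w' : ℤ → B}

lemma T.pos {h n : ℕ} {F : Set ℤ} (hT : T w h n F) : 1 ≤ n := by
  induction hT with
  | point => exact le_rfl
  | sub _ _ h ih => exact ih.trans h
  | union _ _ ih _ => omega
  | lift _ ih => exact ih
  | piece _ _ _ _ _ ih => exact ih 0

lemma T.mono {h n n' : ℕ} {F F' : Set ℤ} (hT : T w h n F) (hn : n ≤ n') (hF : F' ⊆ F) :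
    T w h n' F' := hT.sub hF hn

lemma T.lift_add {h n : ℕ} {F : Set ℤ} (hT : T w h n F) (k : ℕ) : T w (h + k) n F := by
  induction k with
  | zero => exact hT
  | succ k ih => exact ih.lift

lemma T.lift_le {h h' n : ℕ} {F : Set ℤ} (hT : T w h n F) (hh : h ≤ h') : T w h' n F := by
  obtain ⟨k, rfl⟩ := Nat.exists_eq_add_of_le hh
  exact hT.lift_add k

/-- finite unions -/
lemma T.biUnion {ι : Type*} (s : Finset ι) {h n : ℕ} {F : ι → Set ℤ}
    (hF : ∀ i ∈ s, T w h n (F i)) (hs : s.Nonempty) :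
    T w h (s.card * n) (⋃ i ∈ s, F i) := by
  classical
  induction hs using Finset.Nonempty.cons_induction with
  | singleton a =>
    simp only [Finset.card_singleton, one_mul, Finset.mem_singleton, Set.iUnion_iUnion_eq_left]
    exact hF a (by simp)
  | cons a s ha hs ih =>
    have h1 := hF a (by simp)
    have h2 := ih fun i hi => hF i (by simp [hi])
    have h3 := h1.union h2
    refine h3.mono ?_ ?_
    · rw [Finset.card_cons]; ring_nf; omega
    · intro z hz
      simp only [Finset.mem_cons, Set.mem_iUnion] at hz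
      obtain ⟨i, hi, hz⟩ := hz
      rcases hi with rfl | hi
      · exact Or.inl hz
      · right
        simp only [Set.mem_iUnion]
        exact ⟨i, hi, hz⟩

/-- covering by finitely many thin sets -/
lemma T.cover {ι : Type*} (s : Finset ι) {h n : ℕ} {F : ι → Set ℤ} {G : Set ℤ}
    {c : ℕ} (hc : s.card ≤ c) (hc1 : 1 ≤ c)
    (hF : ∀ i ∈ s, T w h n (F i)) (hG : ∀ z ∈ G, ∃ i ∈ s, z ∈ F i) (h0 : ∃ F0, T w h n F0) :
    T w h (c * n) G := by
  classical
  rcases s.eq_empty_or_nonempty with rfl | hs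
  · obtain ⟨F0, h0⟩ := h0
    refine h0.mono (by nlinarith) ?_
    intro z hz
    obtain ⟨i, hi, -⟩ := hG z hz
    simp at hi
  · refine (T.biUnion s hF hs).mono (Nat.mul_le_mul_right n hc) ?_
    intro z hz
    obtain ⟨i, hi, hz⟩ := hG z hz
    simp only [Set.mem_iUnion]
    exact ⟨i, hi, hz⟩

/-- transfer of thin sets by translations and reflections which match the letters -/
theorem transfer {ε t : ℤ} {h n : ℕ} {F : Set ℤ} (hT : T w h n F) (a b : ℤ)
    (hw : (ε = 1 ∧ ∀ i, a ≤ i → i < b → w' (i + t) = w i) ∨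
      (ε = -1 ∧ ∀ i, a ≤ i → i < b → w' (t - 1 - i) = w i)) :
    T w' h (2 ^ h * n) ((fun z => ε * z + t) '' (F ∩ Set.Icc a b)) := by
  induction hT with
  | point z =>
    refine (T.point (w := w') (ε * z + t)).mono (by simp) ?_
    rintro _ ⟨y, ⟨hy, -⟩, rfl⟩
    rw [Set.mem_singleton_iff] at hy
    rw [hy]
    exact rfl
  | sub _ hF hn ih =>
    exact ih.mono (Nat.mul_le_mul_left _ hn) (Set.image_mono (Set.inter_subset_inter_left _ hF))
  | union _ _ ih1 ih2 =>
    refine (ih1.union ih2).mono (by rw [mul_add]) ?_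
    rintro _ ⟨y, ⟨hy, hy'⟩, rfl⟩
    rcases hy with hy | hy
    · exact Or.inl ⟨y, ⟨hy, hy'⟩, rfl⟩
    · exact Or.inr ⟨y, ⟨hy, hy'⟩, rfl⟩
  | lift _ ih =>
    refine ih.lift.mono ?_ (Set.Subset.refl _)
    exact Nat.mul_le_mul_right _ (Nat.pow_le_pow_right (by norm_num) (Nat.le_succ _))
  | @piece h n d c e G hM hG hp hm hwin ih =>
    have hd := hM.pos
    set c' := max c a with hc'
    set e' := min e b with he'
    by_cases hl : c' + 2 * d ≤ e'
    · have hM' : MinPer w d c' e' := hM.restrict (le_max_left _ _) (min_le_left _ _) hl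
      rcases hw with ⟨hε, hw⟩ | ⟨hε, hw⟩
      · subst hε
        have hM2 : MinPer w' d (c' + t) (e' + t) := hM'.trans fun i hi hi' => hw i (by omega)
          (by omega)
        refine (T.piece hM2 (G := (fun z => 1 * z + t) '' (G ∩ Set.Icc a b)) (n := 2 ^ h * n)
          ?_ ?_ ?_ ?_).mono ?_ (Set.Subset.refl _)
        · rintro _ ⟨z, ⟨hz, hz'⟩, rfl⟩
          have h1 := hG hz
          rw [Set.mem_Icc] at h1 hz' ⊢
          simp only
          omega
        · rintro _ ⟨z, ⟨hz, hz'⟩, rfl⟩ hzd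
          simp only at hzd ⊢
          rw [Set.mem_Icc] at hz'
          refine ⟨z + d, ⟨hp z hz (by omega), ?_⟩, by ring⟩
          rw [Set.mem_Icc]; omega
        · rintro _ ⟨z, ⟨hz, hz'⟩, rfl⟩ hzd
          simp only at hzd ⊢
          rw [Set.mem_Icc] at hz'
          refine ⟨z - d, ⟨hm z hz (by omega), ?_⟩, by ring⟩
          rw [Set.mem_Icc]; omega
        · intro x
          refine (ih (x - t)).mono le_rfl ?_
          rintro _ ⟨⟨z, ⟨hz, hz'⟩, rfl⟩, hx⟩
          simp only [Set.mem_Icc] at hx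
          refine ⟨z, ⟨⟨hz, ?_⟩, hz'⟩, rfl⟩
          rw [Set.mem_Icc]; omega
        · rw [pow_succ]; nlinarith [Nat.zero_le (2 ^ h * n)]
      · subst hε
        have hM2 : MinPer w' d (t - e') (t - c') := hM'.refl fun i hi hi' => hw i (by omega)
          (by omega)
        refine (T.piece hM2 (G := (fun z => -1 * z + t) '' (G ∩ Set.Icc a b)) (n := 2 ^ h * n)
          ?_ ?_ ?_ ?_).mono ?_ (Set.Subset.refl _)
        · rintro _ ⟨z, ⟨hz, hz'⟩, rfl⟩
          have h1 := hG hz
          rw [Set.mem_Icc] at h1 hz' ⊢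
          simp only
          omega
        · rintro _ ⟨z, ⟨hz, hz'⟩, rfl⟩ hzd
          simp only at hzd ⊢
          rw [Set.mem_Icc] at hz'
          refine ⟨z - d, ⟨hm z hz (by omega), ?_⟩, by ring⟩
          rw [Set.mem_Icc]; omega
        · rintro _ ⟨z, ⟨hz, hz'⟩, rfl⟩ hzd
          simp only at hzd ⊢
          rw [Set.mem_Icc] at hz'
          refine ⟨z + d, ⟨hp z hz (by omega), ?_⟩, by ring⟩
          rw [Set.mem_Icc]; omega
        · intro x
          refine (ih (t - x - d)).mono le_rfl ?_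
          rintro _ ⟨⟨z, ⟨hz, hz'⟩, rfl⟩, hx⟩
          simp only [Set.mem_Icc] at hx
          refine ⟨z, ⟨⟨hz, ?_⟩, hz'⟩, rfl⟩
          rw [Set.mem_Icc]; omega
        · rw [pow_succ]; nlinarith [Nat.zero_le (2 ^ h * n)]
    · -- two windows
      have h2 := ((ih c').union (ih (c' + d))).lift
      refine h2.mono (by rw [pow_succ]; ring_nf; omega) ?_
      rintro _ ⟨z, ⟨hz, hz'⟩, rfl⟩
      have h1 := hG hz
      have hzz := hz'
      rw [Set.mem_Icc] at h1 hz'
      by_cases hc : z ≤ c' + d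
      · left
        exact ⟨z, ⟨⟨hz, by rw [Set.mem_Icc]; omega⟩, hzz⟩, rfl⟩
      · right
        exact ⟨z, ⟨⟨hz, by rw [Set.mem_Icc]; omega⟩, hzz⟩, rfl⟩

end Pool.Agent.PalLen
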