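import Mathlib
import Pool.Agent.PalLen.Transfer

/-!
Pieces made of translates or reflections of thin sets inside a periodic segment.
-/

set_option autoImplicit false

namespace Pool.Agent.PalLen

variable {B : Type*} {w : ℤ → B} {d a b u v x y : ℤ} {h n : ℕ} {Y G : Set ℤ}

/-- all places of `[a, b]` congruent to a place of `Y` -/
def Cl (d a b : ℤ) (Y : Set ℤ) : Set ℤ := {z | (a ≤ z ∧ z ≤ b) ∧ ∃ y ∈ Y, d ∣ z - y}

lemma card_aux {d p q : ℤ} (hd : 1 ≤ d) (m : ℕ) (hm : q - p ≤ m * d) :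
    (Finset.Icc ((p + d - 1) / d) (q / d)).card ≤ m + 1 := by
  rw [Int.card_Icc]
  have h1 : q < (q / d + 1) * d := Int.lt_ediv_add_one_mul_self q (by omega)
  have h1' : q / d * d ≤ q := Int.ediv_mul_le q (by omega)
  have h2 : p + d - 1 < ((p + d - 1) / d + 1) * d := Int.lt_ediv_add_one_mul_self _ (by omega)
  have h3 : q / d < (p + d - 1) / d + m + 1 := by
    by_contra hc
    push Not at hc
    nlinarith
  omega

/-- windows of translates -/
lemma T.transl_window (hP : Per w d a b) (hd : 1 ≤ d) (hY : T w h n Y)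
    (hYu : ∀ z ∈ Y, u ≤ z ∧ z ≤ v) (hu : a ≤ u) (hv : v ≤ b) (k l : ℕ) (hk : v - u ≤ k * d)
    (hl : y - x ≤ l * d) :
    T w h ((k + l + 1) * 2 ^ h * n) (Cl d a b Y ∩ Set.Icc x y) := by
  classical
  rw [mul_assoc]
  have hF : ∀ t : ℤ, T w h (2 ^ h * n)
      ((fun z => 1 * z + t * d) '' (Y ∩ Set.Icc (max a (a - t * d)) (min b (b - t * d)))) := by
    intro t
    apply transfer hY
    left
    refine ⟨rfl, fun i h1 h2 => ?_⟩
    exact hP.dvd hd (by omega) (by omega) (by omega) (by omega)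
      (by rw [add_sub_cancel_left]; exact Dvd.intro_left t rfl)
  refine T.cover (Finset.Icc ((x - v + d - 1) / d) ((y - u) / d)) (F := fun t : ℤ =>
    (fun z => 1 * z + t * d) '' (Y ∩ Set.Icc (max a (a - t * d)) (min b (b - t * d)))) ?_
    (by omega) (fun t _ => hF t) ?_ ⟨_, hF 0⟩
  · have := card_aux hd (p := x - v) (q := y - u) (k + l) (by push_cast; nlinarith)
    exact this
  · rintro z ⟨⟨⟨h1, h2⟩, y', hy', t, ht⟩, h3⟩
    rw [Set.mem_Icc] at h3
    obtain ⟨h4, h5⟩ := hYu y' hy'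
    have hz : z = 1 * y' + t * d := by linarith [mul_comm t d]
    refine ⟨t, ?_, y', ⟨hy', ?_⟩, hz.symm⟩
    · rw [Finset.mem_Icc]
      constructor
      · rw [Int.ediv_le_iff_le_mul (by omega)]
        nlinarith
      · rw [Int.le_ediv_iff_mul_le (by omega)]
        linarith
    · rw [Set.mem_Icc]
      constructor
      · apply max_le <;> linarith
      · apply le_min <;> linarith

/-- the set of translates is a piece -/
lemma T.translates (hM : MinPer w d a b) (hY : T w h n Y) (hYu : ∀ z ∈ Y, u ≤ z ∧ z ≤ v)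
    (hu : a ≤ u) (hv : v ≤ b) (k : ℕ) (hk : v - u ≤ k * d) :
    T w (h + 1) ((k + 2) * 2 ^ h * n) (Cl d a b Y) := by
  have hd := hM.pos
  refine T.piece hM ?_ ?_ ?_ ?_
  · rintro z ⟨hz, -⟩
    exact hz
  · rintro z ⟨⟨h1, h2⟩, y', hy', h3⟩ h4
    refine ⟨⟨by omega, h4⟩, y', hy', ?_⟩
    rw [show z + d - y' = z - y' + d by ring]
    exact dvd_add h3 dvd_rfl
  · rintro z ⟨⟨h1, h2⟩, y', hy', h3⟩ h4
    refine ⟨⟨h4, by omega⟩, y', hy', ?_⟩
    rw [show z - d - y' = z - y' - d by ring]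
    exact dvd_sub h3 dvd_rfl
  · intro x
    exact T.transl_window hM.per hd hY hYu hu hv k 1 hk (by push_cast; linarith)

/-- the set of reflections is a piece -/
lemma T.reflects (hM : MinPer w d a b) (hY : T w h n Y) (hYu : ∀ z ∈ Y, u ≤ z ∧ z ≤ v)
    (hu : a ≤ u) (hv : v ≤ b) (k : ℕ) (hk : v - u ≤ k * d) (C : ℤ)
    (hC : ∀ i j, a ≤ i → i < b → a ≤ j → j < b → d ∣ i + j - (C - 1) → w i = w j) :
    T w (h + 1) ((k + 2) * 2 ^ h * n) {z | (a ≤ z ∧ z ≤ b) ∧ ∃ y ∈ Y, d ∣ z + y - C} := by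
  classical
  have hd := hM.pos
  refine T.piece hM ?_ ?_ ?_ ?_
  · rintro z ⟨hz, -⟩
    exact hz
  · rintro z ⟨⟨h1, h2⟩, y', hy', h3⟩ h4
    refine ⟨⟨by omega, h4⟩, y', hy', ?_⟩
    rw [show z + d + y' - C = z + y' - C + d by ring]
    exact dvd_add h3 dvd_rfl
  · rintro z ⟨⟨h1, h2⟩, y', hy', h3⟩ h4
    refine ⟨⟨h4, by omega⟩, y', hy', ?_⟩
    rw [show z - d + y' - C = z + y' - C - d by ring]
    exact dvd_sub h3 dvd_rfl
  · intro x
    rw [mul_assoc]
    have hF : ∀ t : ℤ, T w h (2 ^ h * n)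
        ((fun z => -1 * z + (C + t * d)) ''
          (Y ∩ Set.Icc (max a (C + t * d - b)) (min b (C + t * d - a)))) := by
      intro t
      apply transfer hY
      right
      refine ⟨rfl, fun i h1 h2 => ?_⟩
      exact hC _ _ (by omega) (by omega) (by omega) (by omega)
        ⟨t, by ring⟩
    refine T.cover (Finset.Icc ((x + u - C + d - 1) / d) ((x + d + v - C) / d)) (F := fun t : ℤ =>
      (fun z => -1 * z + (C + t * d)) ''
          (Y ∩ Set.Icc (max a (C + t * d - b)) (min b (C + t * d - a)))) ?_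
      (by omega) (fun t _ => hF t) ?_ ⟨_, hF 0⟩
    · have := card_aux hd (p := x + u - C) (q := x + d + v - C) (k + 1) (by push_cast; nlinarith)
      exact this
    · rintro z ⟨⟨⟨h1, h2⟩, y', hy', t, ht⟩, h3⟩
      rw [Set.mem_Icc] at h3
      obtain ⟨h4, h5⟩ := hYu y' hy'
      have hz : z = -1 * y' + (C + t * d) := by linarith [mul_comm t d]
      refine ⟨t, ?_, y', ⟨hy', ?_⟩, hz.symm⟩
      · rw [Finset.mem_Icc]
        constructor
        · rw [Int.ediv_le_iff_le_mul (by omega)]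
          nlinarith
        · rw [Int.le_ediv_iff_mul_le (by omega)]
          linarith
      · rw [Set.mem_Icc]
        constructor
        · apply max_le <;> linarith
        · apply le_min <;> linarith

/-- representatives in the first window -/
lemma rep_window (hd : 1 ≤ d) (hm : ∀ z ∈ G, a ≤ z - d → z - d ∈ G) {z : ℤ} (hz : z ∈ G)
    (ha : a ≤ z) : ∃ y ∈ G, (a ≤ y ∧ y < a + d) ∧ d ∣ z - y ∧ y ≤ z := by
  have key : ∀ n : ℕ, a ≤ z - n * d → z - n * d ∈ G := by
    intro n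
    induction n with
    | zero => intro _; simpa using hz
    | succ n ih =>
      intro h1
      push_cast at h1 ⊢
      have h2 := ih (by nlinarith)
      have h3 := hm _ h2 (by linarith)
      rwa [show z - (n + 1 : ℤ) * d = z - n * d - d by ring]
  have m1 := Int.emod_nonneg (z - a) (show d ≠ 0 by omega)
  have m2 := Int.emod_lt_of_pos (z - a) (show 0 < d by omega)
  have m3 := Int.emod_add_mul_ediv (z - a) d
  have m4 : 0 ≤ (z - a) / d := Int.ediv_nonneg (by omega) (by omega)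
  refine ⟨z - ((z - a) / d).toNat * d, key _ ?_, ⟨?_, ?_⟩, ?_, ?_⟩
  · rw [Int.toNat_of_nonneg m4]; nlinarith
  · rw [Int.toNat_of_nonneg m4]; nlinarith
  · rw [Int.toNat_of_nonneg m4]; nlinarith
  · rw [Int.toNat_of_nonneg m4]
    exact ⟨(z - a) / d, by ring⟩
  · rw [Int.toNat_of_nonneg m4]; nlinarith

end Pool.Agent.PalLen
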