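import Mathlib
import Pool.Agent.PalLen.Trans

/-!
One palindrome step raises the rank of a thin set by one.
-/

set_option autoImplicit false

namespace Pool.Agent.PalLen

variable {B : Type*} {w : ℤ → B} {d a b e : ℤ} {h n : ℕ} {G : Set ℤ}

lemma E_mono {F F' : Set ℤ} (h : F ⊆ F') : E w F ⊆ E w F' := by
  rintro e ⟨j, hj, h1, h2⟩
  exact ⟨j, h hj, h1, h2⟩

lemma E_union {F F' : Set ℤ} : E w (F ∪ F') ⊆ E w F ∪ E w F' := by
  rintro e ⟨j, hj | hj, h1, h2⟩
  · exact Or.inl ⟨j, hj, h1, h2⟩
  · exact Or.inr ⟨j, hj, h1, h2⟩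

/-- the right end of a run -/
lemma exists_run (hB : Bounded w) (hd : 1 ≤ d) (hab : a + 2 * d ≤ e) (hp : Per w d a e) :
    ∃ b, e ≤ b ∧ Per w d a b ∧ ∀ b', Per w d a b' → b' ≤ b := by
  obtain ⟨H, hH⟩ := hB
  obtain ⟨b, ⟨h1, h2⟩, h3⟩ := Int.exists_greatest_of_bdd (P := fun b => e ≤ b ∧ Per w d a b)
    ⟨H, fun z hz => hH d a z hd (by omega) hz.2⟩ ⟨e, le_rfl, hp⟩
  refine ⟨b, h1, h2, fun b' hb' => ?_⟩
  rcases le_or_gt b' e with h | h
  · omega
  · exact h3 b' ⟨by omega, hb'⟩

/-- letters in a run with a symmetry -/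
lemma symm_of_pal {x y : ℤ} (hP : Per w d a b) (hd : 1 ≤ d) (hpal : Pal w x y) (hx : a ≤ x)
    (hy : y ≤ b) (hl : x + 2 * d ≤ y) {i j : ℤ} (h1 : a ≤ i) (h2 : i < b) (h3 : a ≤ j)
    (h4 : j < b) (hdvd : d ∣ i + j - (x + y - 1)) : w i = w j := by
  set i' := x + (i - x) % d with hi'
  have m1 := Int.emod_nonneg (i - x) (show d ≠ 0 by omega)
  have m2 := Int.emod_lt_of_pos (i - x) (show 0 < d by omega)
  have m3 : d ∣ i - i' := ⟨(i - x) / d, by
    have := Int.emod_add_mul_ediv (i - x) d
    linarith⟩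
  rw [hP.dvd hd h1 h2 (by omega) (by omega) m3, ← hpal i' (by omega) (by omega)]
  apply hP.dvd hd (by omega) (by omega) h3 h4
  have := dvd_sub m3 hdvd
  rwa [show i - i' - (i + j - (x + y - 1)) = x + y - 1 - i' - j by ring] at this

/-- two long palindromes in a run -/
lemma center_eq {x y x' y' : ℤ} (hM : MinPer w d a b) (hpal : Pal w x y) (hx : a ≤ x)
    (hy : y ≤ b) (hl : x + 2 * d ≤ y) (hpal' : Pal w x' y') (hx' : a ≤ x')
    (hy' : y' ≤ b) (hl' : x' + 2 * d ≤ y') : d ∣ (x + y) - (x' + y') := by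
  have hd := hM.pos
  by_contra hcon
  set q := ((x + y) - (x' + y')) % d with hq
  have q1 := Int.emod_nonneg ((x + y) - (x' + y')) (show d ≠ 0 by omega)
  have q2 := Int.emod_lt_of_pos ((x + y) - (x' + y')) (show 0 < d by omega)
  have q3 : q ≠ 0 := fun h0 => hcon (Int.dvd_of_emod_eq_zero h0)
  have q4 : d ∣ (x + y) - (x' + y') - q := ⟨((x + y) - (x' + y')) / d, by
    have := Int.emod_add_mul_ediv ((x + y) - (x' + y')) d
    linarith⟩
  apply hM.min q (by omega) q2
  intro i h1 h2
  -- a place congruent to the reflection of `i`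
  set i' := a + (x' + y' - 1 - i - a) % d with hi'
  have m1 := Int.emod_nonneg (x' + y' - 1 - i - a) (show d ≠ 0 by omega)
  have m2 := Int.emod_lt_of_pos (x' + y' - 1 - i - a) (show 0 < d by omega)
  have m3 : d ∣ i + i' - (x' + y' - 1) := ⟨-((x' + y' - 1 - i - a) / d), by
    have := Int.emod_add_mul_ediv (x' + y' - 1 - i - a) d
    linarith⟩
  have hlen := hM.len
  rw [symm_of_pal hM.per hd hpal' hx' hy' hl' (i := i) (j := i') h1 (by omega) (by omega)
    (by omega) m3]
  apply symm_of_pal hM.per hd hpal hx hy hl (by omega) h2 (by omega) (by omega)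
  have := dvd_sub m3 q4
  have h3 : i + i' - (x' + y' - 1) - (x + y - (x' + y') - q) = i + q + i' - (x + y - 1) := by ring
  rwa [h3] at this

/-- the main step for a piece -/
lemma piece_step (hB : Bounded w) {c s : ℕ} (hc : 1 ≤ c)
    (IH : ∀ n F, T w h n F → T w (h + 1) (c * n) (E w F))
    (hsat : ∀ n Y, T w (h + 1) n Y → ∀ d, T w (h + 1 + 1) (s * n) (Sat w d Y))
    (hM : MinPer w d a e) (hG : G ⊆ Set.Icc a e) (hn : 1 ≤ n)
    (_hp : ∀ z ∈ G, z + d ≤ e → z + d ∈ G) (hm : ∀ z ∈ G, a ≤ z - d → z - d ∈ G)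
    (hwin : ∀ x, T w h n (G ∩ Set.Icc x (x + d))) :
    T w (h + 1 + 1) ((2 ^ h * (19 + 3 * s) + 8) * c * n) (E w G) := by
  classical
  have hd := hM.pos
  have hpow : 1 ≤ 2 ^ h := Nat.one_le_two_pow
  by_cases hl : e < a + 8 * d
  · -- short segment
    have h1 : T w (h + 1) (8 * (c * n)) (E w G) := by
      refine T.cover (Finset.range 8) (F := fun i : ℕ =>
        E w (G ∩ Set.Icc (a + i * d) (a + i * d + d))) (by simp) (by omega)
        (fun i _ => IH _ _ (hwin _)) ?_ ⟨_, IH _ _ (hwin 0)⟩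
      rintro z ⟨j, hj, h1, h2⟩
      have h3 := hG hj
      rw [Set.mem_Icc] at h3
      have m3 := Int.emod_add_mul_ediv (j - a) d
      have m1 := Int.emod_nonneg (j - a) (show d ≠ 0 by omega)
      have m2 := Int.emod_lt_of_pos (j - a) (show 0 < d by omega)
      have m4 : 0 ≤ (j - a) / d := Int.ediv_nonneg (by omega) (by omega)
      have m5 : (j - a) / d < 8 := by
        by_contra hcon
        push Not at hcon
        nlinarith
      refine ⟨((j - a) / d).toNat, by rw [Finset.mem_range]; omega, j, ⟨hj, ?_⟩, h1, h2⟩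
      rw [Set.mem_Icc, Int.toNat_of_nonneg m4]
      constructor <;> nlinarith
    refine h1.lift.mono ?_ (Set.Subset.refl _)
    have : 8 * (c * n) ≤ (2 ^ h * (19 + 3 * s) + 8) * (c * n) := by
      apply Nat.mul_le_mul_right
      omega
    rw [mul_assoc]
    exact this
  · push Not at hl
    obtain ⟨b, hb1, hb2, hb3⟩ := exists_run hB hd hM.len hM.per
    have hMb : MinPer w d a b := hM.extend hb2 le_rfl hb1
    -- the first window
    set Y := G ∩ Set.Icc a (a + d) with hY
    have hYT : T w h n Y := hwin a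
    have hYu : ∀ z ∈ Y, a ≤ z ∧ z ≤ a + d := fun z hz => hz.2
    have hGY : G ⊆ Cl d a b Y := by
      intro z hz
      have h1 := hG hz
      rw [Set.mem_Icc] at h1
      obtain ⟨y, hy, ⟨h2, h3⟩, h4, -⟩ := rep_window hd hm hz h1.1
      exact ⟨⟨h1.1, by omega⟩, y, ⟨hy, by rw [Set.mem_Icc]; omega⟩, h4⟩
    have hClrep : ∀ j ∈ Cl d a b Y, ∃ y ∈ Y, (a ≤ y ∧ y < a + d) ∧ d ∣ j - y := by
      rintro j ⟨⟨h1, h2⟩, y, hy, h3⟩
      obtain ⟨y', hy', ⟨h4, h5⟩, h6, -⟩ := rep_window hd hm hy.1 hy.2.1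
      refine ⟨y', ⟨hy', by rw [Set.mem_Icc]; omega⟩, ⟨h4, h5⟩, ?_⟩
      have := dvd_add h3 h6
      rwa [sub_add_sub_cancel] at this
    have hwin' : ∀ x y : ℤ, ∀ l : ℕ, y - x ≤ l * d →
        T w h ((1 + l + 1) * 2 ^ h * n) (Cl d a b Y ∩ Set.Icc x y) := fun x y l hl' =>
      T.transl_window hMb.per hd hYT hYu le_rfl (by omega) 1 l (by push_cast; linarith) hl'
    -- the four parts
    have A1 : T w (h + 1 + 1) (3 * 2 ^ h * n) {z | ∃ j ∈ Cl d a b Y, Pal w j z ∧ z ≤ b ∧
        j + 2 * d ≤ z} := by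
      by_cases hne : ∃ x y, Pal w x y ∧ a ≤ x ∧ y ≤ b ∧ x + 2 * d ≤ y
      · obtain ⟨x, y, h1, h2, h3, h4⟩ := hne
        refine (T.reflects hMb hYT hYu le_rfl (by omega) 1 (by push_cast; linarith) (x + y)
          ?_).lift.mono (by norm_num) ?_
        · intro i j g1 g2 g3 g4 g5
          exact symm_of_pal hMb.per hd h1 h2 h3 h4 g1 g2 g3 g4 g5
        · rintro z ⟨j, hj, g1, g2, g3⟩
          obtain ⟨y', hy', -, g4⟩ := hClrep j hj
          have g5 := center_eq hMb g1 hj.1.1 g2 g3 h1 h2 h3 h4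
          refine ⟨⟨by have := hj.1.1; omega, g2⟩, y', hy', ?_⟩
          have := dvd_sub g5 g4
          rwa [show j + z - (x + y) - (j - y') = z + y' - (x + y) by ring] at this
      · refine (hYT.lift.lift).mono (by nlinarith) ?_
        rintro z ⟨j, hj, g1, g2, g3⟩
        exact absurd ⟨j, z, g1, hj.1.1, g2, g3⟩ hne
    have A2 : T w (h + 1 + 1) (5 * 2 ^ (h + 1) * (c * n)) {z | ∃ j ∈ Cl d a b Y, j < z ∧ Pal w j z ∧
        z ≤ b ∧ z < j + 2 * d} := by
      have h1 : T w (h + 1) (c * n) (E w Y ∩ Set.Icc a (a + 3 * d)) :=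
        (IH _ _ hYT).mono le_rfl Set.inter_subset_left
      refine (T.translates hMb h1 (fun z hz => hz.2) le_rfl (by omega) 3
        (by push_cast; linarith)).mono (by norm_num) ?_
      rintro z ⟨j, hj, g0, g1, g2, g3⟩
      obtain ⟨y', hy', ⟨g4, g5⟩, t, g6⟩ := hClrep j hj
      have hjj : y' = j + -t * d := by linarith [mul_comm t d]
      refine ⟨⟨by have := hj.1.1; omega, g2⟩, z + -t * d, ⟨⟨y', hy', by linarith, ?_⟩, ?_⟩, ?_⟩
      · rw [hjj]
        exact g1.shift hMb.per hd hj.1.1 g2 (by linarith) (by linarith)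
      · rw [Set.mem_Icc]
        constructor <;> linarith
      · exact ⟨t, by ring⟩
    have A3 : T w (h + 1 + 1) (c * (6 * 2 ^ h * n)) (E w (Cl d a b Y ∩ Set.Icc (b - 4 * d) b)) := by
      refine (IH _ _ (hwin' (b - 4 * d) b 4 (by push_cast; linarith))).lift.mono ?_
        (Set.Subset.refl _)
      norm_num
    have A4 : T w (h + 1 + 1) (s * (c * (3 * 2 ^ h * n)))
        (Sat w d (E w (Cl d a b Y ∩ Set.Icc (b - 4 * d) (b - 3 * d)))) := by
      refine hsat _ _ ((IH _ _ (hwin' (b - 4 * d) (b - 3 * d) 1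
        (by push_cast; linarith))).mono ?_ (Set.Subset.refl _)) d
      norm_num
    refine (((A1.union A2).union A3).union A4).mono ?_ ?_
    · have e1 : 3 * 2 ^ h * n ≤ 3 * 2 ^ h * (c * n) := by
        apply Nat.mul_le_mul_left
        nlinarith
      have e2 : 3 * 2 ^ h * n + 5 * 2 ^ (h + 1) * (c * n) + c * (6 * 2 ^ h * n) +
          s * (c * (3 * 2 ^ h * n)) ≤ 2 ^ h * (19 + 3 * s) * (c * n) := by
        calc 3 * 2 ^ h * n + 5 * 2 ^ (h + 1) * (c * n) + c * (6 * 2 ^ h * n) +
            s * (c * (3 * 2 ^ h * n)) ≤ 3 * 2 ^ h * (c * n) + 5 * 2 ^ (h + 1) * (c * n) +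
            c * (6 * 2 ^ h * n) + s * (c * (3 * 2 ^ h * n)) := by omega
          _ = 2 ^ h * (19 + 3 * s) * (c * n) := by rw [pow_succ]; ring
      refine e2.trans ?_
      rw [mul_assoc _ c n]
      apply Nat.mul_le_mul_right
      omega
    · rintro z ⟨j, hj, g1, g2⟩
      have hjC := hGY hj
      have hja := hjC.1.1
      have hjb := hjC.1.2
      rcases le_or_gt z b with hz | hz
      · left; left
        rcases le_or_gt (j + 2 * d) z with h1 | h1
        · left; exact ⟨j, hjC, g2, hz, h1⟩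
        · right; exact ⟨j, hjC, g1, g2, hz, h1⟩
      · rcases lt_or_ge (b - 4 * d) j with h1 | h1
        · left; right
          exact ⟨j, ⟨hjC, by rw [Set.mem_Icc]; omega⟩, g1, g2⟩
        · right
          -- the center is near the end of the run
          have hc0 : 2 * b - (j + z) < d := by
            by_contra hcon
            push Not at hcon
            have p1 : Per w d j b := hMb.per.mono hja le_rfl
            have p2 : Per w d (j + z - b) (j + z - j) := g2.per p1 (by omega) le_rfl (by omega)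
            rw [add_sub_cancel_left] at p2
            have p3 : Per w d j z := p1.glue p2 (by omega)
            have p4 : Per w d a z := hMb.per.glue p3 (by omega)
            have := hb3 z p4
            omega
          set t := (b - 3 * d - j) / d with ht
          have m3 := Int.emod_add_mul_ediv (b - 3 * d - j) d
          have m1 := Int.emod_nonneg (b - 3 * d - j) (show d ≠ 0 by omega)
          have m2 := Int.emod_lt_of_pos (b - 3 * d - j) (show 0 < d by omega)
          rw [← ht] at m3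
          have m4 : 0 ≤ t := Int.ediv_nonneg (by omega) (by omega)
          have m5 : 0 ≤ t * d := by positivity
          have m6 : d * t = t * d := mul_comm _ _
          rw [m6] at m3
          refine ⟨z - t * d, ⟨j + t * d, ⟨⟨⟨by omega, by omega⟩, ?_⟩, ?_⟩, by omega, ?_⟩, t, m4,
            by ring, ?_⟩
          · obtain ⟨y, hy, hyd⟩ := hjC.2
            refine ⟨y, hy, ?_⟩
            rw [show j + t * d - y = j - y + t * d by ring]
            exact dvd_add hyd (Dvd.intro_left t rfl)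
          · rw [Set.mem_Icc]; omega
          · exact g2.inner (t * d) m5
          · have q1 : MinPer w d j (j + t * d + 3 * d) := hMb.restrict hja (by omega) (by omega)
            have q2 := g2.minPer q1 le_rfl (by omega)
            rwa [add_sub_cancel_left,
              show j + z - (j + t * d + 3 * d) = z - t * d - 3 * d by ring] at q2

/-- the constants -/
def CC (S : ℕ → ℕ) : ℕ → ℕ
  | 0 => 3
  | h + 1 => (2 ^ h * (19 + 3 * S (h + 1)) + 8) * CC S h

lemma CC_pos (S : ℕ → ℕ) (h : ℕ) : 1 ≤ CC S h := by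
  induction h with
  | zero => simp [CC]
  | succ h ih =>
    have : CC S (h + 1) = (2 ^ h * (19 + 3 * S (h + 1)) + 8) * CC S h := rfl
    rw [this]
    exact Nat.mul_pos (by omega) ih

lemma CC_le (S : ℕ → ℕ) (h : ℕ) : CC S h ≤ CC S (h + 1) := by
  have : CC S (h + 1) = (2 ^ h * (19 + 3 * S (h + 1)) + 8) * CC S h := rfl
  rw [this]
  exact Nat.le_mul_of_pos_left _ (by omega)

theorem step (hB : Bounded w) {L : ℕ} (hbase : ∀ j, T w 1 (3 * L) (E w {j})) (S : ℕ → ℕ)
    (hsat : ∀ h n Y, T w h n Y → ∀ d, T w (h + 1) (S h * n) (Sat w d Y)) :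
    ∀ h n F, T w h n F → T w (h + 1) (CC S h * (L + 1) * n) (E w F) := by
  intro h
  induction h with
  | zero =>
    intro n F hT
    generalize hh : 0 = h' at hT
    induction hT with
    | point z =>
      refine (hbase z).mono ?_ (Set.Subset.refl _)
      simp only [CC]; omega
    | sub _ hF hn ih => exact (ih hh).mono (Nat.mul_le_mul_left _ hn) (E_mono hF)
    | union _ _ ih1 ih2 =>
      exact ((ih1 hh).union (ih2 hh)).mono (le_of_eq (by ring)) E_union
    | lift => omega
    | piece => omega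
  | succ h IH =>
    intro n F hT
    generalize hh : h + 1 = h' at hT
    induction hT with
    | point => omega
    | sub _ hF hn ih => exact (ih hh).mono (Nat.mul_le_mul_left _ hn) (E_mono hF)
    | union _ _ ih1 ih2 =>
      exact ((ih1 hh).union (ih2 hh)).mono (le_of_eq (by ring)) E_union
    | lift hT _ =>
      obtain rfl := Nat.add_right_cancel hh
      refine (IH _ _ hT).lift.mono ?_ (Set.Subset.refl _)
      apply Nat.mul_le_mul_right
      exact Nat.mul_le_mul_right _ (CC_le S _)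
    | piece hM hG hp hm hwin _ =>
      obtain rfl := Nat.add_right_cancel hh
      have := piece_step (c := CC S h * (L + 1)) (s := S (h + 1)) hB
        (Nat.mul_pos (CC_pos S h) (by omega)) IH (hsat (h + 1)) hM hG (hwin 0).pos hp hm hwin
      refine this.mono ?_ (Set.Subset.refl _)
      apply Nat.mul_le_mul_right
      rw [← mul_assoc]
      exact le_rfl

end Pool.Agent.PalLen
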