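import Mathlib
import Pool.Agent.PalLen.Step

/-!
Continuation of periodic segments raises the rank of a thin set by one.
-/

set_option autoImplicit false

namespace Pool.Agent.PalLen

variable {B : Type*} {w : ℤ → B} {d q a b e : ℤ} {h n : ℕ} {Y : Set ℤ}

lemma Sat_mono {F F' : Set ℤ} (h : F ⊆ F') : Sat w d F ⊆ Sat w d F' := by
  rintro z ⟨y, hy, t, h1, h2, h3⟩
  exact ⟨y, h hy, t, h1, h2, h3⟩

lemma Sat_union {F F' : Set ℤ} : Sat w d (F ∪ F') ⊆ Sat w d F ∪ Sat w d F' := by
  rintro z ⟨y, hy | hy, t, h1, h2, h3⟩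
  · exact Or.inl ⟨y, hy, t, h1, h2, h3⟩
  · exact Or.inr ⟨y, hy, t, h1, h2, h3⟩

/-- moving inside a closed set -/
lemma closed_mul {G : Set ℤ} (hd : 1 ≤ d) (hp : ∀ z ∈ G, z + d ≤ e → z + d ∈ G)
    (hm : ∀ z ∈ G, a ≤ z - d → z - d ∈ G) {z t : ℤ} (hz : z ∈ G) (h1 : a ≤ z + t * d)
    (h2 : z + t * d ≤ e) : z + t * d ∈ G := by
  have key1 : ∀ n : ℕ, z + n * d ≤ e → z + n * d ∈ G := by
    intro n
    induction n with
    | zero => intro _; simpa using hz
    | succ n ih =>
      intro h1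
      push_cast at h1 ⊢
      have h3 := hp _ (ih (by nlinarith)) (by linarith)
      rwa [show z + (n + 1 : ℤ) * d = z + n * d + d by ring]
  have key2 : ∀ n : ℕ, a ≤ z - n * d → z - n * d ∈ G := by
    intro n
    induction n with
    | zero => intro _; simpa using hz
    | succ n ih =>
      intro h1
      push_cast at h1 ⊢
      have h3 := hm _ (ih (by nlinarith)) (by linarith)
      rwa [show z - (n + 1 : ℤ) * d = z - n * d - d by ring]
  rcases le_total 0 t with h0 | h0
  · have := key1 t.toNat (by rw [Int.toNat_of_nonneg h0]; exact h2)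
    rwa [Int.toNat_of_nonneg h0] at this
  · have := key2 (-t).toNat (by rw [Int.toNat_of_nonneg (by omega)]; linarith)
    rwa [Int.toNat_of_nonneg (by omega), show z - -t * d = z + t * d by ring] at this

lemma sat_point (hB : Bounded w) (y d : ℤ) : T w 1 2 (Sat w d {y}) := by
  by_cases hne : ∃ z, MinPer w d (y - 3 * d) z ∧ y ≤ z
  · obtain ⟨z0, h0, hz0⟩ := hne
    have hd := h0.pos
    obtain ⟨b, hb1, hb2, hb3⟩ := exists_run hB hd h0.len h0.per
    have hMb := h0.extend hb2 le_rfl hb1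
    refine (T.translates hMb (T.point y) (u := y) (v := y) ?_ (by omega) (by omega) 0
      (by simp)).mono (by norm_num) ?_
    · intro z hz
      rw [Set.mem_singleton_iff] at hz
      omega
    · rintro z ⟨y', hy', t, h1, h2, h3⟩
      rw [Set.mem_singleton_iff] at hy'
      subst hy'
      have h4 := hb3 z h3.per
      have : 0 ≤ t * d := by positivity
      refine ⟨⟨by omega, h4⟩, y', rfl, ⟨t, ?_⟩⟩
      rw [h2]; ring
  · refine (T.point y).lift.mono (by norm_num) ?_
    rintro z ⟨y', hy', t, h1, h2, h3⟩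
    rw [Set.mem_singleton_iff] at hy'
    subst hy'
    have hd := h3.pos
    have : 0 ≤ t * d := by positivity
    exact absurd ⟨z, h3, by omega⟩ hne

/-- the same period -/
lemma sat_piece_eq (hB : Bounded w) (hM : MinPer w q a e) (hG : Y ⊆ Set.Icc a e)
    (hm : ∀ z ∈ Y, a ≤ z - q → z - q ∈ Y) (hwin : ∀ x, T w h n (Y ∩ Set.Icc x (x + q))) :
    T w (h + 1) (3 * 2 ^ h * n) (Sat w q Y) := by
  have hq := hM.pos
  have hlen := hM.len
  obtain ⟨b, hb1, hb2, hb3⟩ := exists_run hB hq hM.len hM.per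
  have hMb := hM.extend hb2 le_rfl hb1
  refine (T.translates hMb (hwin a) (u := a) (v := a + q) (fun z hz => hz.2) le_rfl (by omega) 1
    (by push_cast; linarith)).mono (by norm_num) ?_
  rintro z ⟨y, hy, t, h1, h2, h3⟩
  have h4 := hG hy
  rw [Set.mem_Icc] at h4
  have h5 : z ≤ b := by
    rcases le_or_gt z e with h6 | h6
    · omega
    · apply hb3
      exact hM.per.glue (h3.per.mono (le_max_right a (y - 3 * q)) le_rfl) (by omega)
  obtain ⟨y', hy', h6, h7, h8⟩ := rep_window hq hm hy h4.1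
  have : 0 ≤ t * q := by positivity
  refine ⟨⟨by omega, h5⟩, y', ⟨hy', by rw [Set.mem_Icc]; omega⟩, ?_⟩
  rw [h2, show y + t * q - y' = y - y' + t * q by ring]
  exact dvd_add h7 (Dvd.intro_left t rfl)

/-- a smaller period -/
lemma sat_piece_lt (hB : Bounded w) (hM : MinPer w q a e) (hG : Y ⊆ Set.Icc a e) (hqd : q < d)
    (hY : T w (h + 1) n Y) : T w (h + 1 + 1) (4 * 2 ^ (h + 1) * n) (Sat w d Y) := by
  by_cases hne : ∃ y ∈ Y, MinPer w d (y - 3 * d) y
  · obtain ⟨y1, hy1, hy1'⟩ := hne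
    have hd := hy1'.pos
    obtain ⟨y0, ⟨hy0, hy0'⟩, hmin⟩ := Int.exists_least_of_bdd
      (P := fun y => y ∈ Y ∧ MinPer w d (y - 3 * d) y) ⟨a, fun z hz => (hG hz.1).1⟩ ⟨y1, hy1, hy1'⟩
    have hclose : ∀ y ∈ Y, MinPer w d (y - 3 * d) y → y0 ≤ y ∧ y < y0 + 2 * d := by
      intro y hy hy'
      refine ⟨hmin y ⟨hy, hy'⟩, ?_⟩
      by_contra hcon
      push Not at hcon
      have h1 := (hG hy0).1
      have h2 := (hG hy).2
      have := hM.eq_of_common hy' (x := y - 2 * d) (y := y) (by omega) (by omega) h2 le_rfl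
        (by omega) (by omega)
      omega
    obtain ⟨b, hb1, hb2, hb3⟩ := exists_run hB hd hy0'.len hy0'.per
    have hMb := hy0'.extend hb2 le_rfl hb1
    have hY' : T w (h + 1) n {y | y ∈ Y ∧ MinPer w d (y - 3 * d) y} :=
      hY.mono le_rfl fun y hy => hy.1
    have hreach : ∀ y z, y ∈ Y → MinPer w d (y - 3 * d) y → Per w d (y - 3 * d) z → z ≤ b := by
      intro y z hy hy' hz
      have h1 := (hclose y hy hy').2
      exact hb3 z (hy0'.per.glue hz (by omega))
    refine (T.translates hMb hY' (u := y0) (v := min (y0 + 2 * d) b) ?_ (by omega)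
      (min_le_right _ _) 2 ?_).mono (by norm_num) ?_
    · rintro y ⟨hy, hy'⟩
      obtain ⟨h1, h2⟩ := hclose y hy hy'
      exact ⟨h1, le_min (by omega) (hreach y y hy hy' hy'.per)⟩
    · have := min_le_left (y0 + 2 * d) b
      push_cast
      linarith
    · rintro z ⟨y, hy, t, h1, h2, h3⟩
      have h4 : 0 ≤ t * d := by positivity
      have hy' : MinPer w d (y - 3 * d) y := h3.restrict le_rfl (by omega) (by omega)
      obtain ⟨h5, h6⟩ := hclose y hy hy'
      refine ⟨⟨by omega, hreach y z hy hy' h3.per⟩, y, ⟨hy, hy'⟩, ⟨t, ?_⟩⟩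
      rw [h2]; ring
  · refine hY.lift.mono ?_ ?_
    · have : 1 ≤ 4 * 2 ^ (h + 1) := Nat.mul_pos (by norm_num) (by positivity)
      exact Nat.le_mul_of_pos_left _ this
    · rintro z ⟨y, hy, t, h1, h2, h3⟩
      have hd := h3.pos
      have h4 : 0 ≤ t * d := by positivity
      exact absurd ⟨y, hy, h3.restrict le_rfl (by omega) (by omega)⟩ hne

/-- a larger period -/
lemma sat_piece_gt {c : ℕ} (hM : MinPer w q a e) (hG : Y ⊆ Set.Icc a e) (hqd : d < q)
    (hp : ∀ z ∈ Y, z + q ≤ e → z + q ∈ Y) (hm : ∀ z ∈ Y, a ≤ z - q → z - q ∈ Y)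
    (IH : ∀ x, T w (h + 1) c (Sat w d (Y ∩ Set.Icc x (x + q)))) :
    T w (h + 1 + 1) ((8 + 5 * 2 ^ (h + 1)) * c) (Sat w d Y) := by
  classical
  have hq := hM.pos
  by_cases hl : e < a + 8 * q
  · -- short segment
    have h1 : T w (h + 1) (8 * c) (Sat w d Y) := by
      refine T.cover (Finset.range 8) (F := fun i : ℕ =>
        Sat w d (Y ∩ Set.Icc (a + i * q) (a + i * q + q))) (by simp) (by omega)
        (fun i _ => IH _) ?_ ⟨_, IH 0⟩
      rintro z ⟨j, hj, h1⟩
      have h3 := hG hj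
      rw [Set.mem_Icc] at h3
      have m3 := Int.emod_add_mul_ediv (j - a) q
      have m1 := Int.emod_nonneg (j - a) (show q ≠ 0 by omega)
      have m2 := Int.emod_lt_of_pos (j - a) (show 0 < q by omega)
      have m4 : 0 ≤ (j - a) / q := Int.ediv_nonneg (by omega) (by omega)
      have m5 : (j - a) / q < 8 := by
        by_contra hcon
        push Not at hcon
        nlinarith
      refine ⟨((j - a) / q).toNat, by rw [Finset.mem_range]; omega, j, ⟨hj, ?_⟩, h1⟩
      rw [Set.mem_Icc, Int.toNat_of_nonneg m4]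
      constructor <;> nlinarith
    refine h1.lift.mono ?_ (Set.Subset.refl _)
    apply Nat.mul_le_mul_right
    omega
  · push Not at hl
    have A1 : T w (h + 1) (3 * c) {z | ∃ y ∈ Y, ∃ t : ℤ, 0 ≤ t ∧ z = y + t * d ∧
        MinPer w d (y - 3 * d) z ∧ y - 3 * d < a} := by
      refine T.cover (Finset.range 3) (F := fun i : ℕ =>
        Sat w d (Y ∩ Set.Icc (a + i * q) (a + i * q + q))) (by simp) (by omega)
        (fun i _ => IH _) ?_ ⟨_, IH 0⟩
      rintro z ⟨j, hj, t, h1, h2, h3, h4⟩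
      have h5 := hG hj
      rw [Set.mem_Icc] at h5
      have hd := h3.pos
      have m3 := Int.emod_add_mul_ediv (j - a) q
      have m1 := Int.emod_nonneg (j - a) (show q ≠ 0 by omega)
      have m2 := Int.emod_lt_of_pos (j - a) (show 0 < q by omega)
      have m4 : 0 ≤ (j - a) / q := Int.ediv_nonneg (by omega) (by omega)
      have m5 : (j - a) / q < 3 := by
        by_contra hcon
        push Not at hcon
        nlinarith
      refine ⟨((j - a) / q).toNat, by rw [Finset.mem_range]; omega, j, ⟨hj, ?_⟩, t, h1, h2, h3⟩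
      rw [Set.mem_Icc, Int.toNat_of_nonneg m4]
      constructor <;> nlinarith
    have A2 : T w (h + 1) (c + c) {z | ∃ y ∈ Y, ∃ t : ℤ, 0 ≤ t ∧ z = y + t * d ∧
        MinPer w d (y - 3 * d) z ∧ e < z} := by
      refine ((IH (e - 2 * q)).union (IH (e - q))).mono le_rfl ?_
      rintro z ⟨j, hj, t, h1, h2, h3, h4⟩
      have h5 := hG hj
      rw [Set.mem_Icc] at h5
      have hd := h3.pos
      have h6 : e < j + 2 * q := by
        by_contra hcon
        push Not at hcon
        have := hM.eq_of_common h3 (x := j) (y := e) h5.1 (by omega) le_rfl (by omega) hcon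
          (by omega)
        omega
      rcases le_or_gt j (e - q) with h7 | h7
      · left; exact ⟨j, ⟨hj, by rw [Set.mem_Icc]; omega⟩, t, h1, h2, h3⟩
      · right; exact ⟨j, ⟨hj, by rw [Set.mem_Icc]; omega⟩, t, h1, h2, h3⟩
    have A3 : T w (h + 1 + 1) (5 * 2 ^ (h + 1) * c) {z | ∃ y ∈ Y, ∃ t : ℤ, 0 ≤ t ∧ z = y + t * d ∧
        MinPer w d (y - 3 * d) z ∧ a ≤ y - 3 * d ∧ z ≤ e} := by
      have h0 : T w (h + 1) c (Sat w d (Y ∩ Set.Icc (a + 3 * q) (a + 3 * q + q)) ∩
          Set.Icc (a + 3 * q) (a + 6 * q)) := (IH (a + 3 * q)).mono le_rfl Set.inter_subset_left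
      refine (T.translates hM h0 (u := a + 3 * q) (v := a + 6 * q) (fun z hz => hz.2) (by omega)
        (by omega) 3 (by push_cast; linarith)).mono (by norm_num) ?_
      rintro z ⟨y, hy, t, h1, h2, h3, h4, h5⟩
      have hd := h3.pos
      have htd : 0 ≤ t * d := by positivity
      have h6 : z - (y - 3 * d) < 2 * q := by
        by_contra hcon
        push Not at hcon
        have := hM.eq_of_common h3 (x := y - 3 * d) (y := z) h4 le_rfl h5 le_rfl (by omega)
          (by omega)
        omega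
      have m3 := Int.emod_add_mul_ediv (y - (a + 3 * q)) q
      have m1 := Int.emod_nonneg (y - (a + 3 * q)) (show q ≠ 0 by omega)
      have m2 := Int.emod_lt_of_pos (y - (a + 3 * q)) (show 0 < q by omega)
      set s := -((y - (a + 3 * q)) / q) with hs
      have m4 : y + s * q = a + 3 * q + (y - (a + 3 * q)) % q := by
        rw [hs]; linarith
      have m5 : y + s * q ∈ Y := closed_mul hq hp hm hy (by omega) (by omega)
      have m6 : MinPer w d (y - 3 * d + s * q) (z + s * q) :=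
        h3.shift hM.per hq h4 h5 (by omega) (by omega)
      refine ⟨⟨by omega, h5⟩, z + s * q, ⟨⟨y + s * q, ⟨m5, by rw [Set.mem_Icc]; omega⟩, t, h1,
        by rw [h2]; ring, ?_⟩, by rw [Set.mem_Icc]; omega⟩, ?_⟩
      · rwa [show y + s * q - 3 * d = y - 3 * d + s * q by ring]
      · exact ⟨-s, by ring⟩
    refine ((A1.union A2).lift.union A3).mono ?_ ?_
    · rw [add_mul]
      omega
    · rintro z ⟨y, hy, t, h1, h2, h3⟩
      by_cases h4 : y - 3 * d < a
      · exact Or.inl (Or.inl ⟨y, hy, t, h1, h2, h3, h4⟩)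
      by_cases h5 : e < z
      · exact Or.inl (Or.inr ⟨y, hy, t, h1, h2, h3, h5⟩)
      · exact Or.inr ⟨y, hy, t, h1, h2, h3, by omega, by omega⟩

/-- the constants -/
def SS : ℕ → ℕ
  | 0 => 2
  | h + 1 => (8 + 5 * 2 ^ (h + 1)) * SS h

lemma SS_pos (h : ℕ) : 2 ≤ SS h := by
  induction h with
  | zero => simp [SS]
  | succ h ih =>
    have : SS (h + 1) = (8 + 5 * 2 ^ (h + 1)) * SS h := rfl
    rw [this]
    nlinarith [Nat.zero_le (5 * 2 ^ (h + 1) * SS h)]

theorem sat (hB : Bounded w) {h n : ℕ} {Y : Set ℤ} (hT : T w h n Y) (d : ℤ) :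
    T w (h + 1) (SS h * n) (Sat w d Y) := by
  induction hT with
  | point y => exact (sat_point hB y d).mono (by simp [SS]) (Set.Subset.refl _)
  | sub _ hF hn ih => exact ih.mono (Nat.mul_le_mul_left _ hn) (Sat_mono hF)
  | union _ _ ih1 ih2 => exact (ih1.union ih2).mono (le_of_eq (by ring)) Sat_union
  | @lift h n F _ ih =>
    refine ih.lift.mono ?_ (Set.Subset.refl _)
    apply Nat.mul_le_mul_right
    have : SS (h + 1) = (8 + 5 * 2 ^ (h + 1)) * SS h := rfl
    rw [this]
    exact Nat.le_mul_of_pos_left _ (by omega)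
  | @piece h n q a e G hM hG hp hm hwin ih =>
    have e1 : SS (h + 1) = (8 + 5 * 2 ^ (h + 1)) * SS h := rfl
    have e2 := SS_pos h
    have e3 : (8 + 5 * 2 ^ (h + 1)) * 2 ≤ SS (h + 1) := by
      rw [e1]; exact Nat.mul_le_mul_left _ e2
    rcases lt_trichotomy q d with hqd | hqd | hqd
    · refine (sat_piece_lt hB hM hG hqd (T.piece hM hG hp hm hwin)).mono ?_ (Set.Subset.refl _)
      apply Nat.mul_le_mul_right
      omega
    · subst hqd
      refine (sat_piece_eq hB hM hG hm hwin).lift.mono ?_ (Set.Subset.refl _)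
      apply Nat.mul_le_mul_right
      have : 2 ^ (h + 1) = 2 * 2 ^ h := by rw [pow_succ]; ring
      omega
    · refine (sat_piece_gt hM hG hqd hp hm ih).mono ?_ (Set.Subset.refl _)
      rw [e1, mul_assoc]

end Pool.Agent.PalLen
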