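import Mathlib
import Pool.Agent.PalLen.Sat

/-!
Palindromes starting at one position.
-/

set_option autoImplicit false

namespace Pool.Agent.PalLen

variable {B : Type*} {w : ℤ → B} {d q a b e j : ℤ} {h n L : ℕ} {Y : Set ℤ}

/-- a finite set is thin of rank `0` -/
lemma T.of_encard {F : Set ℤ} {m : ℕ} (hF : F.encard ≤ m) (hm : 1 ≤ m) : T w 0 m F := by
  classical
  have hfin : F.Finite := Set.finite_of_encard_le_coe hF
  have hc : hfin.toFinset.card ≤ m := by
    rw [hfin.encard_eq_coe_toFinset_card] at hF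
    exact_mod_cast hF
  have := T.cover (w := w) (h := 0) (n := 1) hfin.toFinset (F := fun z => {z}) (G := F) hc hm
    (fun i _ => T.point i) (fun z hz => ⟨z, by simpa using hz, rfl⟩) ⟨{0}, T.point 0⟩
  simpa using this

/-- every nonempty segment has a smallest period -/
lemma exists_minPer {p : ℤ} (hp : 1 ≤ p) (h3 : 3 * p ≤ e - j) (hper : Per w p j e) :
    ∃ d, MinPer w d j e ∧ 3 * d ≤ e - j := by
  obtain ⟨d, ⟨h1, h2⟩, h4⟩ := Int.exists_least_of_bdd (P := fun d => 1 ≤ d ∧ Per w d j e)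
    ⟨1, fun z hz => hz.1⟩ ⟨p, hp, hper⟩
  have h5 := h4 p ⟨hp, hper⟩
  refine ⟨d, ⟨h1, h2, by omega, fun q hq1 hq2 hq3 => ?_⟩, by omega⟩
  have := h4 q ⟨hq1, hq3⟩
  omega

/-- an external palindrome with the smallest period `d` -/
lemma exists_ext (hM : MinPer w d j e) (h3 : 3 * d ≤ e - j) (hpal : Pal w j e) :
    ∃ e', Ext w j e' ∧ MinPer w d j e' ∧ e' < j + 3 * d := by
  have hd := hM.pos
  set t := (e - j) / d - 2 with ht
  have m3 := Int.emod_add_mul_ediv (e - j) d
  have m1 := Int.emod_nonneg (e - j) (show d ≠ 0 by omega)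
  have m2 := Int.emod_lt_of_pos (e - j) (show 0 < d by omega)
  have m4 : 3 ≤ (e - j) / d := by
    rw [Int.le_ediv_iff_mul_le (by omega)]
    linarith
  have m5 : e - t * d = j + 2 * d + (e - j) % d := by
    rw [ht]; linarith [sub_mul ((e - j) / d) 2 d, mul_comm d ((e - j) / d)]
  have m6 : 0 ≤ t * d := by
    have : 0 ≤ t := by omega
    positivity
  have hM' : MinPer w d j (e - t * d) := hM.restrict le_rfl (by omega) (by omega)
  refine ⟨e - t * d, ⟨by omega, hpal.sub_mul hM.per hd (by omega), ?_⟩, hM', by omega⟩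
  intro p hp1 hp2 hp3
  exact hM'.min p hp1 (by omega) hp3

/-- palindromes with the start `j` and the smallest period `d` -/
lemma base_class (hB : Bounded w) (j d : ℤ) :
    T w 1 2 {e | Pal w j e ∧ MinPer w d j e ∧ 3 * d ≤ e - j} := by
  by_cases hne : ∃ e, Pal w j e ∧ MinPer w d j e ∧ 3 * d ≤ e - j
  · obtain ⟨e0, h1, h2, h3⟩ := hne
    have hd := h2.pos
    obtain ⟨b, hb1, hb2, hb3⟩ := exists_run hB hd h2.len h2.per
    have hMb := h2.extend hb2 le_rfl hb1
    refine (T.translates hMb (T.point e0) (u := e0) (v := e0) ?_ (by omega) hb1 0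
      (by simp)).mono (by norm_num) ?_
    · intro z hz
      rw [Set.mem_singleton_iff] at hz
      omega
    · -- all these ends are congruent
      have key : ∀ x y, Pal w j x → MinPer w d j x → 3 * d ≤ x - j → Pal w j y →
          MinPer w d j y → x ≤ y → d ∣ y - x := by
        intro x y g1 g2 g3 g4 g5 g6
        rcases eq_or_lt_of_le g6 with g7 | g7
        · rw [g7]; simp
        · exact g5.dvd_of_per (g1.border g4 g6) (by omega) (by omega)
      rintro z ⟨g1, g2, g3⟩
      refine ⟨⟨by omega, hb3 z g2.per⟩, e0, rfl, ?_⟩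
      rcases le_total e0 z with g4 | g4
      · exact key e0 z h1 h2 h3 g1 g2 g4
      · have := key z e0 g1 g2 g3 h1 h2 g4
        rw [← neg_sub, dvd_neg] at this
        exact this
  · refine ((T.point j).lift.mono (by norm_num) ?_ : T w 1 2 _)
    rintro z hz
    exact absurd ⟨z, hz⟩ hne

theorem base (hB : Bounded w) (hL : ExtLe w L) (j : ℤ) : T w 1 (3 * L) (E w {j}) := by
  classical
  have hfin : {e | Ext w j e}.Finite := Set.finite_of_encard_le_coe (hL j)
  have hc : hfin.toFinset.card ≤ L := by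
    have := hL j
    rw [hfin.encard_eq_coe_toFinset_card] at this
    exact_mod_cast this
  -- `[j, j + 1)` is external
  have hj1 : Ext w j (j + 1) := by
    refine ⟨by omega, fun i h1 h2 => ?_, fun p h1 h2 => by omega⟩
    rw [show j + (j + 1) - 1 - i = i by omega]
  have hL1 : 1 ≤ L := by
    have : 0 < hfin.toFinset.card := Finset.card_pos.mpr ⟨j + 1, by simpa using hj1⟩
    omega
  have h0 : T w 0 L {e | Ext w j e} := T.of_encard (hL j) hL1
  have h1 : T w 1 (L * 2) {e | Pal w j e ∧ ∃ d, MinPer w d j e ∧ 3 * d ≤ e - j} := by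
    refine T.cover hfin.toFinset (F := fun e' : ℤ => {e | Pal w j e ∧ ∃ d, MinPer w d j e' ∧
      MinPer w d j e ∧ 3 * d ≤ e - j}) hc hL1 ?_ ?_ ⟨_, base_class hB j 0⟩
    · intro e' _
      by_cases hne : ∃ d, MinPer w d j e'
      · obtain ⟨d, hd⟩ := hne
        refine (base_class hB j d).mono le_rfl ?_
        rintro e ⟨g1, d', g2, g3, g4⟩
        have : d = d' := by
          have p1 := hd.pos
          have p2 := g2.pos
          have p3 := hd.len
          have p4 := g2.len
          exact hd.eq_of_common g2 (x := j) (y := e') le_rfl le_rfl le_rfl le_rfl p3 p4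
        subst this
        exact ⟨g1, g3, g4⟩
      · refine (base_class hB j 0).mono le_rfl ?_
        rintro e ⟨g1, d', g2, g3, g4⟩
        exact absurd ⟨d', g2⟩ hne
    · rintro e ⟨g1, d, g2, g3⟩
      obtain ⟨e', k1, k2, k3⟩ := exists_ext g2 g3 g1
      exact ⟨e', by simpa using k1, g1, d, k2, g2, g3⟩
  refine (h0.lift.union h1).mono (by omega) ?_
  rintro e ⟨j', hj', g1, g2⟩
  rw [Set.mem_singleton_iff] at hj'
  subst hj'
  by_cases hc' : ∃ p, 1 ≤ p ∧ 3 * p ≤ e - j' ∧ Per w p j' e
  · obtain ⟨p, p1, p2, p3⟩ := hc'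
    right
    exact ⟨g2, exists_minPer p1 p2 p3⟩
  · left
    exact ⟨g1, g2, fun p p1 p2 p3 => hc' ⟨p, p1, p2, p3⟩⟩

end Pool.Agent.PalLen
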