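import Mathlib
import Pool.Agent.PalLen.Base

/-!
The set of positions reachable by at most `K` palindromes is thin.
-/

set_option autoImplicit false

namespace Pool.Agent.PalLen

variable {B : Type*} {w : ℤ → B} {L : ℕ}

/-- the constants -/
def DD : ℕ → ℕ
  | 0 => 1
  | K + 1 => (1 + CC SS K) * DD K

theorem reach (hB : Bounded w) (hL : ExtLe w L) (j : ℤ) (K : ℕ) :
    T w K (DD K * (L + 1) ^ K) (Reach w {j} K) := by
  induction K with
  | zero => exact (T.point j).mono (by simp [DD]) (Set.Subset.refl _)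
  | succ K ih =>
    have h1 := step hB (fun j => base hB hL j) SS (fun h n Y hT d => sat hB hT d) K _ _ ih
    refine (ih.lift.union h1).mono ?_ (Set.Subset.refl _)
    have e1 : DD (K + 1) = (1 + CC SS K) * DD K := rfl
    rw [e1]
    have e2 : DD K * (L + 1) ^ K ≤ DD K * (L + 1) ^ (K + 1) := by
      apply Nat.mul_le_mul_left
      exact Nat.pow_le_pow_right (by omega) (by omega)
    calc DD K * (L + 1) ^ K + CC SS K * (L + 1) * (DD K * (L + 1) ^ K)
        ≤ DD K * (L + 1) ^ (K + 1) + CC SS K * (L + 1) * (DD K * (L + 1) ^ K) := by omega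
      _ = (1 + CC SS K) * DD K * (L + 1) ^ (K + 1) := by rw [pow_succ]; ring

end Pool.Agent.PalLen
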