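import Mathlib
import Pool.Agent.PalLen.Basic
import Pool.Agent.PalLen.Transfer

/-!
Nested external palindromes give exponentially many positions which thin sets do not contain.
-/

set_option autoImplicit false

namespace Pool.Agent.PalLen

variable {B : Type*} {w : ℤ → B}

/-- covering by `c` windows of length `d` -/
def Cov (d : ℤ) (F : Set ℤ) (c : ℕ) : Prop :=
  ∃ s : Finset ℤ, s.card ≤ c ∧ ∀ z ∈ F, ∃ x ∈ s, x ≤ z ∧ z ≤ x + d

lemma Cov.mono {d : ℤ} {F F' : Set ℤ} {c c' : ℕ} (h : Cov d F c) (hF : F' ⊆ F) (hc : c ≤ c') :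
    Cov d F' c' := by
  obtain ⟨s, h1, h2⟩ := h
  exact ⟨s, h1.trans hc, fun z hz => h2 z (hF hz)⟩

lemma Cov.union {d : ℤ} {F F' : Set ℤ} {c c' : ℕ} (h : Cov d F c) (h' : Cov d F' c') :
    Cov d (F ∪ F') (c + c') := by
  classical
  obtain ⟨s, h1, h2⟩ := h
  obtain ⟨s', h1', h2'⟩ := h'
  refine ⟨s ∪ s', (Finset.card_union_le _ _).trans (by omega), ?_⟩
  rintro z (hz | hz)
  · obtain ⟨x, hx, h3⟩ := h2 z hz
    exact ⟨x, Finset.mem_union_left _ hx, h3⟩
  · obtain ⟨x, hx, h3⟩ := h2' z hz
    exact ⟨x, Finset.mem_union_right _ hx, h3⟩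

lemma Cov.short {d a b : ℤ} {F : Set ℤ} (hF : ∀ z ∈ F, a ≤ z ∧ z ≤ b) (hl : b - a < 3 * d) :
    Cov d F 3 := by
  classical
  refine ⟨{a, a + d, a + 2 * d}, Finset.card_le_three, ?_⟩
  intro z hz
  obtain ⟨h1, h2⟩ := hF z hz
  by_cases h3 : z ≤ a + d
  · exact ⟨a, by simp, h1, h3⟩
  by_cases h4 : z ≤ a + 2 * d
  · exact ⟨a + d, by simp, by omega, by omega⟩
  · exact ⟨a + 2 * d, by simp, by omega, by omega⟩

/-- reflection of windows -/
lemma Cov.reflect {d t : ℤ} {F F' : Set ℤ} {c : ℕ} (h : Cov d F c)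
    (hF : ∀ z ∈ F', t - z ∈ F) : Cov d F' c := by
  classical
  obtain ⟨s, h1, h2⟩ := h
  refine ⟨s.image fun x => t - x - d, Finset.card_image_le.trans h1, ?_⟩
  intro z hz
  obtain ⟨x, hx, h3, h4⟩ := h2 _ (hF z hz)
  exact ⟨t - x - d, Finset.mem_image_of_mem _ hx, by omega, by omega⟩

/-- the tree points -/
def X (j : ℤ) (e : ℕ → ℤ) : ℕ → Finset ℤ
  | 0 => {j}
  | i + 1 => X j e i ∪ (X j e i).image fun z => j + e (i + 1) - z

variable {j : ℤ} {e : ℕ → ℤ} {m : ℕ}

/-- a chain of external palindromes -/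
structure Chain (w : ℤ → B) (j : ℤ) (e : ℕ → ℤ) (m : ℕ) : Prop where
  zero : e 0 = j
  ext : ∀ i, 1 ≤ i → i ≤ m → Ext w j (e i)
  dbl : ∀ i, i < m → 2 * (e i - j) < e (i + 1) - j

lemma Chain.pal (h : Chain w j e m) {i : ℕ} (hi : i ≤ m) : Pal w j (e i) := by
  rcases Nat.eq_zero_or_pos i with h0 | h0
  · subst h0
    rw [h.zero]
    intro k h1 h2
    omega
  · exact (h.ext i h0 hi).pal

lemma Chain.le (h : Chain w j e m) {i : ℕ} (hi : i ≤ m) : j ≤ e i := by
  rcases Nat.eq_zero_or_pos i with h0 | h0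
  · subst h0
    rw [h.zero]
  · exact (h.ext i h0 hi).lt.le

lemma Chain.short (h : Chain w j e m) {i : ℕ} (hi : i ≤ m) {d : ℤ} (hd : 1 ≤ d)
    (hp : Per w d j (e i)) : e i - j < 3 * d := by
  rcases Nat.eq_zero_or_pos i with h0 | h0
  · subst h0
    rw [h.zero]
    omega
  · by_contra hcon
    push Not at hcon
    exact (h.ext i h0 hi).ext d hd hcon hp

lemma X_mem (h : Chain w j e m) {i : ℕ} (hi : i ≤ m) {z : ℤ} (hz : z ∈ X j e i) :
    j ≤ z ∧ z ≤ e i := by
  induction i generalizing z with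
  | zero =>
    simp only [X, Finset.mem_singleton] at hz
    rw [hz, h.zero]
    exact ⟨le_rfl, le_rfl⟩
  | succ i ih =>
    simp only [X, Finset.mem_union, Finset.mem_image] at hz
    have h1 := h.dbl i (by omega)
    have h2 := h.le (i := i) (by omega)
    rcases hz with hz | ⟨y, hy, rfl⟩
    · have := ih (by omega) hz
      omega
    · have := ih (by omega) hy
      omega

lemma X_card (h : Chain w j e m) {i : ℕ} (hi : i ≤ m) : (X j e i).card = 2 ^ i := by
  induction i with
  | zero => simp [X]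
  | succ i ih =>
    simp only [X]
    rw [Finset.card_union_of_disjoint, Finset.card_image_of_injective _ (fun a b hab => by
      have : j + e (i + 1) - a = j + e (i + 1) - b := hab
      omega), ih (by omega), pow_succ]
    · ring
    · rw [Finset.disjoint_left]
      intro z hz hz'
      rw [Finset.mem_image] at hz'
      obtain ⟨y, hy, rfl⟩ := hz'
      have h1 := X_mem h (by omega) hz
      have h2 := X_mem h (by omega) hy
      have h3 := h.dbl i (by omega)
      omega

/-- one-sided segments -/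
lemma cov_prefix (h : Chain w j e m) {d : ℤ} (hd : 1 ≤ d) : ∀ i, i ≤ m → ∀ y, Per w d j y →
    Cov d {z | z ∈ X j e i ∧ z ≤ y} 6 := by
  intro i
  induction i with
  | zero =>
    intro hi y hp
    refine (Cov.short (a := j) (b := j) ?_ (by omega)).mono (Set.Subset.refl _) (by norm_num)
    rintro z ⟨hz, -⟩
    simp only [X, Finset.mem_singleton] at hz
    rw [hz]; exact ⟨le_rfl, le_rfl⟩
  | succ i ih =>
    intro hi y hp
    have h1 := h.dbl i (by omega)
    have h2 := h.le (i := i) (by omega)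
    rcases le_or_gt (e (i + 1)) y with h3 | h3
    · -- the whole palindrome
      have h4 := h.short hi hd (hp.mono le_rfl h3)
      refine (Cov.short (a := j) (b := e (i + 1)) ?_ h4).mono (Set.Subset.refl _) (by norm_num)
      rintro z ⟨hz, -⟩
      exact X_mem h hi hz
    rcases lt_or_ge y (j + e (i + 1) - e i) with h4 | h4
    · refine (ih (by omega) y hp).mono ?_ le_rfl
      rintro z ⟨hz, hzy⟩
      simp only [X, Finset.mem_union, Finset.mem_image] at hz
      rcases hz with hz | ⟨z', hz', rfl⟩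
      · exact ⟨hz, hzy⟩
      · have := X_mem h (by omega) hz'
        omega
    · have h5 := h.short (i := i) (by omega) hd (hp.mono le_rfl (by omega))
      have c1 : Cov d {z | z ∈ X j e i} 3 :=
        Cov.short (a := j) (b := e i) (fun z hz => X_mem h (by omega) hz) h5
      have c2 : Cov d {z | ∃ z' ∈ X j e i, z = j + e (i + 1) - z'} 3 := by
        refine Cov.short (a := j + e (i + 1) - e i) (b := e (i + 1)) ?_ (by omega)
        rintro z ⟨z', hz', rfl⟩
        have := X_mem h (by omega) hz'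
        omega
      refine (c1.union c2).mono ?_ le_rfl
      rintro z ⟨hz, -⟩
      simp only [X, Finset.mem_union, Finset.mem_image] at hz
      rcases hz with hz | ⟨z', hz', rfl⟩
      · exact Or.inl hz
      · exact Or.inr ⟨z', hz', rfl⟩

lemma X_symm (h : Chain w j e m) {i : ℕ} (hi : i ≤ m) {z : ℤ} (hz : z ∈ X j e i) :
    j + e i - z ∈ X j e i := by
  rcases Nat.eq_zero_or_pos i with h0 | h0
  · subst h0
    simp only [X, Finset.mem_singleton] at hz ⊢
    rw [hz, h.zero]; ring
  · obtain ⟨k, rfl⟩ : ∃ k, i = k + 1 := ⟨i - 1, by omega⟩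
    simp only [X, Finset.mem_union, Finset.mem_image] at hz ⊢
    rcases hz with hz | ⟨z', hz', rfl⟩
    · right; exact ⟨z, hz, rfl⟩
    · left
      rwa [show j + e (k + 1) - (j + e (k + 1) - z') = z' by ring]

lemma cov_suffix (h : Chain w j e m) {d : ℤ} (hd : 1 ≤ d) {i : ℕ} (hi : i ≤ m) {y : ℤ}
    (hp : Per w d y (e i)) : Cov d {z | z ∈ X j e i ∧ y ≤ z} 6 := by
  have h1 : Per w d (j + e i - e i) (j + e i - max y j) :=
    (h.pal hi).per (hp.mono (le_max_left _ _) le_rfl) (by omega) (le_max_right _ _) le_rfl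
  rw [add_sub_cancel_right] at h1
  refine (cov_prefix h hd i hi _ h1).reflect (t := j + e i) ?_
  rintro z ⟨hz, hyz⟩
  have := X_mem h hi hz
  exact ⟨X_symm h hi hz, by omega⟩

lemma cov_all (h : Chain w j e m) {d : ℤ} (hd : 1 ≤ d) : ∀ i, i ≤ m → ∀ s t, Per w d s t →
    Cov d {z | z ∈ X j e i ∧ s ≤ z ∧ z ≤ t} 12 := by
  intro i
  induction i with
  | zero =>
    intro hi s t hp
    refine (Cov.short (a := j) (b := j) ?_ (by omega)).mono (Set.Subset.refl _) (by norm_num)
    rintro z ⟨hz, -⟩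
    simp only [X, Finset.mem_singleton] at hz
    rw [hz]; exact ⟨le_rfl, le_rfl⟩
  | succ i ih =>
    intro hi s t hp
    have h1 := h.dbl i (by omega)
    have h2 := h.le (i := i) (by omega)
    have hpal := h.pal hi
    rcases lt_or_ge t (j + e (i + 1) - e i) with h3 | h3
    · refine (ih (by omega) s t hp).mono ?_ le_rfl
      rintro z ⟨hz, hzs, hzt⟩
      simp only [X, Finset.mem_union, Finset.mem_image] at hz
      rcases hz with hz | ⟨z', hz', rfl⟩
      · exact ⟨hz, hzs, hzt⟩
      · have := X_mem h (by omega) hz'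
        omega
    rcases lt_or_ge (e i) s with h4 | h4
    · have h5 : Per w d (j + e (i + 1) - min t (e (i + 1))) (j + e (i + 1) - s) :=
        hpal.per (hp.mono le_rfl (min_le_left _ _)) (by omega) (by omega) (min_le_right _ _)
      refine (ih (by omega) _ _ h5).reflect (t := j + e (i + 1)) ?_
      rintro z ⟨hz, hzs, hzt⟩
      simp only [X, Finset.mem_union, Finset.mem_image] at hz
      rcases hz with hz | ⟨z', hz', rfl⟩
      · have := X_mem h (by omega) hz
        omega
      · have := X_mem h (by omega) hz'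
        rw [show j + e (i + 1) - (j + e (i + 1) - z') = z' by ring]
        refine ⟨hz', ?_, ?_⟩
        · rcases min_choice t (e (i + 1)) with h6 | h6 <;> rw [h6] <;> omega
        · omega
    · -- both halves
      have c1 : Cov d {z | z ∈ X j e i ∧ s ≤ z} 6 :=
        cov_suffix h hd (by omega) (hp.mono le_rfl (by omega))
      have h5 : Per w d (j + e (i + 1) - min t (e (i + 1))) (j + e (i + 1) - (j + e (i + 1) - e i)) :=
        hpal.per (hp.mono (by omega) (min_le_left _ _)) (by omega) (by omega) (min_le_right _ _)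
      rw [sub_sub_cancel] at h5
      have c2 := (cov_suffix h hd (i := i) (by omega) h5).reflect (t := j + e (i + 1))
        (F' := {z | (∃ z' ∈ X j e i, z = j + e (i + 1) - z') ∧ z ≤ t}) (by
          rintro z ⟨⟨z', hz', rfl⟩, hzt⟩
          have := X_mem h (by omega) hz'
          rw [show j + e (i + 1) - (j + e (i + 1) - z') = z' by ring]
          refine ⟨hz', ?_⟩
          rcases min_choice t (e (i + 1)) with h6 | h6 <;> rw [h6] <;> omega)
      refine (c1.union c2).mono ?_ le_rfl
      rintro z ⟨hz, hzs, hzt⟩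
      simp only [X, Finset.mem_union, Finset.mem_image] at hz
      rcases hz with hz | ⟨z', hz', rfl⟩
      · exact Or.inl ⟨hz, hzs⟩
      · exact Or.inr ⟨⟨z', hz', rfl⟩, hzt⟩

/-- thin sets contain few tree points -/
theorem tree (h : Chain w j e m) {k n : ℕ} {F : Set ℤ} (hT : T w k n F) :
    ∀ Z : Finset ℤ, (∀ z ∈ Z, z ∈ X j e m ∧ z ∈ F) → Z.card ≤ n * 12 ^ k := by
  classical
  induction hT with
  | point z =>
    intro Z hZ
    simp only [pow_zero, mul_one]
    refine (Finset.card_le_card (t := {z}) ?_).trans (by simp)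
    intro y hy
    simpa using (hZ y hy).2
  | sub _ hF hn ih =>
    intro Z hZ
    exact (ih Z fun z hz => ⟨(hZ z hz).1, hF (hZ z hz).2⟩).trans (Nat.mul_le_mul_right _ hn)
  | @union k n n' F F' _ _ ih1 ih2 =>
    intro Z hZ
    have h1 := ih1 (Z.filter (· ∈ F)) fun z hz => by
      rw [Finset.mem_filter] at hz
      exact ⟨(hZ z hz.1).1, hz.2⟩
    have h2 := ih2 (Z.filter (¬ · ∈ F)) fun z hz => by
      rw [Finset.mem_filter] at hz
      exact ⟨(hZ z hz.1).1, (hZ z hz.1).2.resolve_left hz.2⟩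
    have h3 := Finset.card_filter_add_card_filter_not (s := Z) (· ∈ F)
    rw [add_mul]
    omega
  | lift _ ih =>
    intro Z hZ
    refine (ih Z hZ).trans ?_
    apply Nat.mul_le_mul_left
    exact Nat.pow_le_pow_right (by norm_num) (by omega)
  | @piece k n d a b G hM hG _ _ hwin ih =>
    intro Z hZ
    obtain ⟨s, hs, hs'⟩ := cov_all h hM.pos m le_rfl a b hM.per
    have h1 : Z ⊆ s.biUnion fun x => Z.filter (· ∈ Set.Icc x (x + d)) := by
      intro y hy
      have h2 := hG (hZ y hy).2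
      rw [Set.mem_Icc] at h2
      obtain ⟨x, hx, h3, h4⟩ := hs' y ⟨(hZ y hy).1, h2.1, h2.2⟩
      rw [Finset.mem_biUnion]
      refine ⟨x, hx, ?_⟩
      rw [Finset.mem_filter]
      exact ⟨hy, h3, h4⟩
    calc Z.card ≤ _ := Finset.card_le_card h1
      _ ≤ ∑ x ∈ s, (Z.filter (· ∈ Set.Icc x (x + d))).card := Finset.card_biUnion_le
      _ ≤ ∑ _x ∈ s, n * 12 ^ k := Finset.sum_le_sum fun x _ => ih x _ fun z hz => by
          rw [Finset.mem_filter] at hz
          exact ⟨(hZ z hz.1).1, (hZ z hz.1).2, hz.2⟩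
      _ = s.card * (n * 12 ^ k) := by rw [Finset.sum_const, smul_eq_mul]
      _ ≤ 12 * (n * 12 ^ k) := Nat.mul_le_mul_right _ hs
      _ = n * 12 ^ (k + 1) := by rw [pow_succ]; ring

end Pool.Agent.PalLen
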