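import Mathlib
import Pool.Agent.PalLen.Reach
import Pool.Agent.PalLen.Tree

/-!
The number of external palindromes is bounded.
-/

set_option autoImplicit false

namespace Pool.Agent.PalLen

variable {B : Type*} {w : ℤ → B} {j : ℤ}

lemma ext_ratio {x y : ℤ} (hx : Ext w j x) (hy : Ext w j y) (h : x < y) :
    3 * (x - j) < 2 * (y - j) := by
  by_contra hcon
  push Not at hcon
  exact hy.ext (y - x) (by omega) (by omega) (hx.pal.border hy.pal h.le)

/-- every second external palindrome -/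
lemma exists_chain (S : Finset ℤ) (hS : ∀ e ∈ S, Ext w j e) {H : ℤ} (hH : ∀ e ∈ S, e ≤ H)
    (hj : j ≤ H) : ∃ m e, Chain w j e m ∧ S.card ≤ 2 * m ∧ e m ≤ H := by
  classical
  set N := S.card with hN
  set f := S.orderEmbOfFin hN.symm with hf
  have hfS : ∀ i, f i ∈ S := fun i => S.orderEmbOfFin_mem hN.symm i
  set e : ℕ → ℤ := fun i => if i = 0 then j else if hh : 2 * (i - 1) < N then f ⟨2 * (i - 1), hh⟩
    else 0 with he
  have he1 : ∀ i, (hi : 1 ≤ i) → (hh : 2 * (i - 1) < N) → e i = f ⟨2 * (i - 1), hh⟩ := by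
    intro i hi hh
    simp only [he]
    rw [if_neg (by omega), dif_pos hh]
  refine ⟨(N + 1) / 2, e, ⟨by simp [he], ?_, ?_⟩, by omega, ?_⟩
  · intro i h1 h2
    rw [he1 i h1 (by omega)]
    exact hS _ (hfS _)
  · intro i h1
    rcases Nat.eq_zero_or_pos i with h0 | h0
    · subst h0
      have h2 : e 0 = j := by simp [he]
      rw [h2, he1 (0 + 1) (by omega) (by omega)]
      have := (hS _ (hfS ⟨2 * (0 + 1 - 1), by omega⟩)).lt
      omega
    · have hi2 : 2 * (i + 1 - 1) < N := by omega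
      rw [he1 i h0 (by omega), he1 (i + 1) (by omega) hi2]
      have hmid : 2 * (i - 1) + 1 < N := by omega
      have g1 : f ⟨2 * (i - 1), by omega⟩ < f ⟨2 * (i - 1) + 1, hmid⟩ := by
        apply f.strictMono
        rw [Fin.mk_lt_mk]; omega
      have g2 : f ⟨2 * (i - 1) + 1, hmid⟩ < f ⟨2 * (i + 1 - 1), hi2⟩ := by
        apply f.strictMono
        rw [Fin.mk_lt_mk]; omega
      have r1 := ext_ratio (hS _ (hfS _)) (hS _ (hfS _)) g1
      have r2 := ext_ratio (hS _ (hfS _)) (hS _ (hfS _)) g2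
      have r3 := (hS _ (hfS ⟨2 * (i - 1), by omega⟩)).lt
      omega
  · rcases Nat.eq_zero_or_pos ((N + 1) / 2) with h0 | h0
    · rw [h0]
      have h2 : e 0 = j := by simp [he]
      rw [h2]; exact hj
    · rw [he1 _ h0 (by omega)]
      exact hH _ (hfS _)

/-- polynomials are smaller than exponentials -/
lemma exists_pow_gt (C K : ℕ) : ∃ m0 : ℕ, ∀ m, 2 ^ m ≤ C * (2 * m + 1) ^ K → m ≤ m0 := by
  have h1 : Filter.Tendsto (fun n : ℕ => (n : ℝ) ^ K / 2 ^ n) Filter.atTop (nhds 0) :=
    tendsto_pow_const_div_const_pow_of_one_lt K (by norm_num)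
  have h2 : ∀ᶠ n : ℕ in Filter.atTop, (n : ℝ) ^ K / 2 ^ n < 1 / ((C + 1) * 3 ^ K) := by
    apply h1.eventually_lt_const
    positivity
  obtain ⟨m0, hm0⟩ := Filter.eventually_atTop.mp h2
  refine ⟨max m0 1, fun m hm => ?_⟩
  by_contra hcon
  push Not at hcon
  have h3 := hm0 m (by omega)
  have hm1 : 1 ≤ m := by omega
  rw [div_lt_div_iff₀ (by positivity) (by positivity)] at h3
  have h4 : (C * (2 * m + 1) ^ K : ℝ) ≤ (m : ℝ) ^ K * ((C + 1) * 3 ^ K) := by
    have e1 : ((2 * m + 1 : ℝ)) ^ K ≤ (3 * m) ^ K := by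
      apply pow_le_pow_left₀ (by positivity)
      have : (1 : ℝ) ≤ m := by exact_mod_cast hm1
      linarith
    calc (C * (2 * m + 1) ^ K : ℝ) ≤ C * (3 * m) ^ K := by
          apply mul_le_mul_of_nonneg_left e1 (by positivity)
      _ ≤ (C + 1) * (3 * m) ^ K := by
          apply mul_le_mul_of_nonneg_right _ (by positivity)
          linarith
      _ = (m : ℝ) ^ K * ((C + 1) * 3 ^ K) := by rw [mul_pow]; ring
  have h5 : ((2 : ℝ) ^ m) ≤ C * (2 * m + 1) ^ K := by exact_mod_cast hm
  linarith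

/-! ### The words `cut u n` -/

variable {A : Type*} {u : ℕ → A} {n : ℕ}

lemma cut_out {i : ℤ} (h : ¬ (0 ≤ i ∧ i < n)) : cut u n i = Sum.inr i := by
  unfold cut
  rw [if_neg h]

lemma cut_in {i : ℤ} (h1 : 0 ≤ i) (h2 : i < n) : cut u n i = Sum.inl (u i.toNat) := by
  unfold cut
  rw [if_pos ⟨h1, h2⟩]

lemma cut_eq_inr {i k : ℤ} (h : cut u n i = Sum.inr k) : i = k := by
  unfold cut at h
  split_ifs at h
  exact Sum.inr.inj h

lemma cut_eq_out {i k : ℤ} (h : ¬ (0 ≤ i ∧ i < n)) (he : cut u n k = cut u n i) : k = i := by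
  rw [cut_out h] at he
  exact cut_eq_inr he

lemma cut_bounded (u : ℕ → A) (n : ℕ) : Bounded (cut u n) := by
  refine ⟨n, fun d a b hd hl hp => ?_⟩
  by_contra hcon
  push Not at hcon
  have h1 := hp (b - 1 - d) (by omega) (by omega)
  rw [show b - 1 - d + d = b - 1 by ring] at h1
  have := cut_eq_out (i := b - 1) (k := b - 1 - d) (by omega) h1.symm
  omega

lemma cut_pal {j e : ℤ} (hp : Pal (cut u n) j e) (hje : j < e) (he : e ≠ j + 1) :
    0 ≤ j ∧ e ≤ n := by
  have h1 := hp j le_rfl hje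
  rw [show j + e - 1 - j = e - 1 by ring] at h1
  constructor
  · by_contra hcon
    have := cut_eq_out (i := j) (k := e - 1) (by omega) h1
    omega
  · by_contra hcon
    have := cut_eq_out (i := e - 1) (k := j) (by omega) h1.symm
    omega

lemma cut_extLe (u : ℕ → A) (n : ℕ) : ExtLe (cut u n) (n + 1) := by
  classical
  intro j
  have h1 : {e | Ext (cut u n) j e} ⊆ ((insert (j + 1) (Finset.Icc (1 : ℤ) n) : Finset ℤ) :
      Set ℤ) := by
    intro e he
    have he' : Ext (cut u n) j e := he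
    by_cases h2 : e = j + 1
    · simp [h2]
    · have h3 := cut_pal he'.pal he'.lt h2
      have h4 := he'.lt
      simp only [Finset.coe_insert, Finset.coe_Icc, Set.mem_insert_iff, Set.mem_Icc]
      right; omega
  refine (Set.encard_le_encard h1).trans ?_
  rw [Set.encard_coe_eq_coe_finsetCard]
  have h2 := Finset.card_insert_le (j + 1) (Finset.Icc (1 : ℤ) n)
  rw [Int.card_Icc] at h2
  have h3 : (insert (j + 1) (Finset.Icc (1 : ℤ) n)).card ≤ n + 1 := by omega
  exact_mod_cast h3

lemma ExtLe.mono {L L' : ℕ} (h : ExtLe w L) (hL : L ≤ L') : ExtLe w L' :=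
  fun j => (h j).trans (by exact_mod_cast hL)

/-- all positions of a factor are reachable by `K` palindromes -/
def Fact (u : ℕ → A) (K : ℕ) : Prop :=
  ∀ n a b : ℕ, a ≤ b → b ≤ n → (b : ℤ) ∈ Reach (cut u n) {(a : ℤ)} K

/-- a uniform bound for the number of external palindromes -/
theorem exists_bound {K : ℕ} (hu : Fact u K) : ∃ L, ∀ n, ExtLe (cut u n) L := by
  classical
  obtain ⟨m0, hm0⟩ := exists_pow_gt (DD K * 12 ^ K) K
  refine ⟨2 * m0 + 2, fun n => ?_⟩
  have hex : ∃ L, ExtLe (cut u n) L := ⟨_, cut_extLe u n⟩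
  set L := Nat.find hex with hL
  have hL1 : ExtLe (cut u n) L := Nat.find_spec hex
  by_cases hL2 : L ≤ 2 * m0 + 2
  · exact hL1.mono hL2
  push Not at hL2
  exfalso
  have h1 := Nat.find_min hex (m := L - 1) (by omega)
  unfold ExtLe at h1
  push Not at h1
  obtain ⟨j, hj⟩ := h1
  have hfin : {e | Ext (cut u n) j e}.Finite := Set.finite_of_encard_le_coe (hL1 j)
  set S := hfin.toFinset with hS
  have hSm : ∀ e, e ∈ S ↔ Ext (cut u n) j e := fun e => by rw [hS]; simp
  have hSc : L ≤ S.card := by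
    rw [hfin.encard_eq_coe_toFinset_card] at hj
    have : L - 1 < S.card := by exact_mod_cast hj
    omega
  have hSc' : S.card ≤ L := by
    have := hL1 j
    rw [hfin.encard_eq_coe_toFinset_card] at this
    exact_mod_cast this
  -- there is an external palindrome different from `[j, j + 1)`
  obtain ⟨e0, he0, he0'⟩ : ∃ e ∈ S, e ≠ j + 1 := by
    by_contra hcon
    push Not at hcon
    have : S ⊆ {j + 1} := fun e he => by simpa using hcon e he
    have := Finset.card_le_card this
    simp at this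
    omega
  have he0x := (hSm e0).mp he0
  obtain ⟨hj0, he0n⟩ := cut_pal he0x.pal he0x.lt he0'
  have hjn : j + 1 ≤ n := by have := he0x.lt; omega
  obtain ⟨m, e, hC, hm, hem⟩ := exists_chain S (fun e he => (hSm e).mp he) (H := n) (fun e he => by
    by_cases h2 : e = j + 1
    · omega
    · exact (cut_pal ((hSm e).mp he).pal ((hSm e).mp he).lt h2).2) (by omega)
  -- the tree points are reachable
  have hT := reach (cut_bounded u n) hL1 j K
  have h2 := tree hC hT (X j e m) (fun z hz => by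
    refine ⟨hz, ?_⟩
    have h3 := X_mem hC le_rfl hz
    have h4 := hu n j.toNat z.toNat (by omega) (by omega)
    rwa [Int.toNat_of_nonneg hj0, Int.toNat_of_nonneg (by omega)] at h4)
  rw [X_card hC le_rfl] at h2
  have h3 : 2 ^ m ≤ DD K * 12 ^ K * (2 * m + 1) ^ K := by
    refine h2.trans ?_
    have e1 : (L + 1) ^ K ≤ (2 * m + 1) ^ K := Nat.pow_le_pow_left (by omega) K
    calc DD K * (L + 1) ^ K * 12 ^ K = DD K * 12 ^ K * (L + 1) ^ K := by ring
      _ ≤ _ := Nat.mul_le_mul_left _ e1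
  have := hm0 m h3
  omega

end Pool.Agent.PalLen
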