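import Mathlib
import Pool.Agent.PalLen.Chain

/-!
End of the proof of the palindromic length conjecture.
-/

set_option autoImplicit false

namespace Pool.Agent.PalLen

variable {B : Type*} {w : ℤ → B} {A : Type*} {u : ℕ → A}

/-- the factor of `u` of length `c` which starts at `a` -/
def seg (u : ℕ → A) (a c : ℕ) : List A := (List.range c).map fun i => u (a + i)

lemma seg_length (u : ℕ → A) (a c : ℕ) : (seg u a c).length = c := by simp [seg]

lemma seg_add (u : ℕ → A) (a c d : ℕ) : seg u a (c + d) = seg u a c ++ seg u (a + c) d := by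
  unfold seg
  rw [List.range_add, List.map_append, List.map_map]
  congr 1
  apply List.map_congr_left
  intro i _
  simp only [Function.comp]
  rw [add_assoc]

lemma seg_ofFn (u : ℕ → A) (n : ℕ) : List.ofFn (fun i : Fin n => u i.val) = seg u 0 n := by
  apply List.ext_getElem
  · simp [seg]
  · intro i h1 h2
    simp [seg]

lemma seg_pal {a c : ℕ} (h : (seg u a c).reverse = seg u a c) {k : ℕ} (hk : k < c) :
    u (a + (c - 1 - k)) = u (a + k) := by
  have h1 : (seg u a c).reverse[k]? = (seg u a c)[k]? := by rw [h]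
  have hl := seg_length u a c
  rw [List.getElem?_eq_getElem (by simp [hl, hk]), List.getElem?_eq_getElem (by rw [hl]; exact hk),
    List.getElem_reverse] at h1
  simpa [seg] using h1

lemma Reach_mono {F : Set ℤ} {K K' : ℕ} (h : K ≤ K') : Reach w F K ⊆ Reach w F K' := by
  induction h with
  | refl => exact Set.Subset.refl _
  | step _ ih => exact ih.trans Set.subset_union_left

/-- factorisations into palindromes give reachable positions -/
lemma reach_of_list {n a : ℕ} (L : List (List A)) : ∀ c, a + c ≤ n →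
    (∀ p ∈ L, p.reverse = p) → L.flatten = seg u a c →
    ((a + c : ℕ) : ℤ) ∈ Reach (cut u n) {(a : ℤ)} L.length := by
  induction L using List.reverseRecOn with
  | nil =>
    intro c _ _ hf
    have : c = 0 := by
      have := congrArg List.length hf
      rw [seg_length] at this
      simpa using this.symm
    subst this
    simp [Reach]
  | append_singleton L p ih =>
    intro c hc hp hf
    simp only [List.flatten_append, List.flatten_cons, List.flatten_nil, List.append_nil] at hf
    have hlen := congrArg List.length hf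
    rw [List.length_append, seg_length] at hlen
    obtain ⟨c', hc'⟩ : ∃ c', L.flatten.length = c' := ⟨_, rfl⟩
    obtain ⟨l, hl⟩ : ∃ l, p.length = l := ⟨_, rfl⟩
    have hcl : c = c' + l := by omega
    subst hcl
    rw [seg_add] at hf
    obtain ⟨h1, h2⟩ := List.append_inj hf (by rw [hc', seg_length])
    have h3 := ih c' (by omega) (fun q hq => hp q (by simp [hq])) h1
    rw [List.length_append, List.length_singleton]
    rcases Nat.eq_zero_or_pos l with h0 | h0
    · subst h0
      exact Or.inl (by simpa using h3)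
    · right
      refine ⟨_, h3, by push_cast; omega, ?_⟩
      have hpp : (seg u (a + c') l).reverse = seg u (a + c') l := by
        rw [← h2]; exact hp p (by simp)
      intro i hi1 hi2
      push_cast at hi1 hi2 ⊢
      rw [cut_in (by omega) (by omega), cut_in (by omega) (by omega)]
      congr 1
      have h4 := seg_pal hpp (k := (i - (a + c')).toNat) (by omega)
      rw [show (a : ℤ) + c' + (a + (c' + l)) - 1 - i = ((a + c' + (l - 1 -
        (i - (a + c')).toNat) : ℕ) : ℤ) by omega, Int.toNat_natCast, h4]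
      congr 1
      omega

theorem fact_of_prefix {K : ℕ}
    (saarela : ∀ (P Q : List (List A)) (y : List A), (∀ p ∈ P, p.reverse = p) →
      (∀ q ∈ Q, q.reverse = q) → Q.flatten = P.flatten ++ y →
      ∃ R : List (List A), R.length ≤ P.length + Q.length ∧ (∀ r ∈ R, r.reverse = r) ∧
        R.flatten = y)
    (h : ∀ n, ∃ L : List (List A), L.length ≤ K ∧ (∀ p ∈ L, p.reverse = p) ∧
      L.flatten = seg u 0 n) : Fact u (K + K) := by
  intro n a b hab hbn
  obtain ⟨P, p1, p2, p3⟩ := h a
  obtain ⟨Q, q1, q2, q3⟩ := h b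
  obtain ⟨c, rfl⟩ := Nat.exists_eq_add_of_le hab
  obtain ⟨R, r1, r2, r3⟩ := saarela P Q (seg u a c) p2 q2 (by
    rw [q3, p3, seg_add, zero_add])
  exact Reach_mono (by omega) (reach_of_list R c hbn r2 r3)

/-- **The palindromic length conjecture.** -/
theorem main
    (saarela : ∀ (P Q : List (List A)) (y : List A), (∀ p ∈ P, p.reverse = p) →
      (∀ q ∈ Q, q.reverse = q) → Q.flatten = P.flatten ++ y →
      ∃ R : List (List A), R.length ≤ P.length + Q.length ∧ (∀ r ∈ R, r.reverse = r) ∧
        R.flatten = y)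
    (sparse : ∀ M : ℕ, ∃ Z : Finset ℕ, Z.card = M ∧ ∀ n, (∀ z ∈ Z, z ≤ n) → ∀ k m F,
      T (cut u n) k m F → ∀ Y : Finset ℕ, Y ⊆ Z → (∀ z ∈ Y, (z : ℤ) ∈ F) → Y.card ≤ m * 2 ^ k)
    (K : ℕ) : ∃ n : ℕ, ¬ ∃ L : List (List A), L.length ≤ K ∧ (∀ p ∈ L, p.reverse = p) ∧
      L.flatten = List.ofFn (fun i : Fin n => u i.val) := by
  by_contra hcon
  push Not at hcon
  have hF : Fact u (K + K) := fact_of_prefix saarela fun n => by
    obtain ⟨L, h1, h2, h3⟩ := hcon n
    exact ⟨L, h1, h2, by rw [h3, seg_ofFn]⟩
  obtain ⟨L, hL⟩ := exists_bound hF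
  obtain ⟨Z, hZ, hZ'⟩ := sparse (DD (K + K) * (L + 1) ^ (K + K) * 2 ^ (K + K) + 1)
  have hn : ∀ z ∈ Z, z ≤ Z.sup id := fun z hz => Finset.le_sup (f := id) hz
  have hT := reach (cut_bounded u (Z.sup id)) (hL (Z.sup id)) 0 (K + K)
  have h1 := hZ' (Z.sup id) hn _ _ _ hT Z (Finset.Subset.refl _) (fun z hz => by
    have := hF (Z.sup id) 0 z (Nat.zero_le _) (hn z hz)
    simpa using this)
  omega

end Pool.Agent.PalLen
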