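import Mathlib

/-!
Saarela's lemma on palindromic lengths (MP_cacb4b_co, part H1).
-/

set_option autoImplicit false

namespace Pool.Agent.PalLen

variable {A : Type*}

/-- `x` is a concatenation of at most `k` palindromes -/
def PF (k : ℕ) (x : List A) : Prop :=
  ∃ R : List (List A), R.length ≤ k ∧ (∀ r ∈ R, r.reverse = r) ∧ R.flatten = x

lemma PF.mono {k k' : ℕ} {x : List A} (h : PF k x) (hk : k ≤ k') : PF k' x := by
  obtain ⟨R, h1, h2, h3⟩ := h
  exact ⟨R, h1.trans hk, h2, h3⟩

lemma PF.cons {k : ℕ} {p x : List A} (hp : p.reverse = p) (h : PF k x) : PF (k + 1) (p ++ x) := by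
  obtain ⟨R, h1, h2, h3⟩ := h
  refine ⟨p :: R, by simpa using h1, ?_, by simp [h3]⟩
  intro r hr
  rcases List.mem_cons.mp hr with rfl | hr
  · exact hp
  · exact h2 r hr

/-- a palindrome `p ++ r` with `p` a palindrome: `r` is a product of two palindromes -/
lemma two_pal : ∀ n : ℕ, ∀ p r : List A, p.length ≤ n → p.reverse = p →
    (p ++ r).reverse = p ++ r → ∃ t s : List A, t.reverse = t ∧ s.reverse = s ∧ r = t ++ s := by
  intro n
  induction n with
  | zero =>
    intro p r hn hp hpr
    have : p = [] := List.length_eq_zero_iff.mp (by omega)
    subst this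
    exact ⟨[], r, rfl, by simpa using hpr, by simp⟩
  | succ n ih =>
    intro p r hn hp hpr
    rw [List.reverse_append, hp] at hpr
    -- hpr : r.reverse ++ p = p ++ r
    rcases Nat.lt_or_ge p.length r.length with hlt | hge
    · -- `r.reverse = p ++ t`
      have h1 : p <+: r.reverse := by
        have e1 : p <+: r.reverse ++ p := by rw [hpr]; exact List.prefix_append _ _
        exact List.prefix_of_prefix_length_le e1 (List.prefix_append _ _) (by simp; omega)
      obtain ⟨t, ht⟩ := h1
      rw [← ht, List.append_assoc] at hpr
      have h2 := List.append_cancel_left hpr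
      -- h2 : t ++ p = r
      refine ⟨t, p, ?_, hp, h2.symm⟩
      rw [← h2, List.reverse_append, hp] at ht
      exact (List.append_cancel_left ht).symm
    · by_cases hr0 : r = []
      · exact ⟨[], [], rfl, rfl, by simp [hr0]⟩
      have hrl : 0 < r.length := List.length_pos_iff.mpr hr0
      have h1 : r.reverse <+: p := by
        have e1 : r.reverse <+: p ++ r := by rw [← hpr]; exact List.prefix_append _ _
        exact List.prefix_of_prefix_length_le e1 (List.prefix_append _ _) (by simp; omega)
      obtain ⟨p1, hp1⟩ := h1
      have hl : r.length + p1.length = p.length := by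
        rw [← hp1]; simp
      have h2 : p1 ++ r = p := by
        rw [← hp1, List.append_assoc] at hpr
        have := List.append_cancel_left hpr
        rw [hp1] at this
        exact this.symm
      have h3 : p1.reverse = p1 := by
        have e1 : p1.reverse ++ r = p1 ++ r := by
          rw [h2]
          have : (r.reverse ++ p1).reverse = p := by rw [hp1, hp]
          rw [List.reverse_append, List.reverse_reverse] at this
          exact this
        exact List.append_cancel_right e1
      exact ih p1 r (by omega) h3 (by rw [h2, hp])

/-- removal of a palindromic prefix -/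
lemma PF.tail : ∀ n : ℕ, ∀ p : List A, p.length ≤ n → p.reverse = p → ∀ k z, PF k (p ++ z) →
    PF (k + 1) z := by
  intro n
  induction n with
  | zero =>
    intro p hn hp k z h
    have : p = [] := List.length_eq_zero_iff.mp (by omega)
    subst this
    exact PF.mono (by simpa using h) (by omega)
  | succ n ih =>
    intro p hn hp k z h
    obtain ⟨R, h1, h2, h3⟩ := h
    induction R generalizing k with
    | nil =>
      have : p ++ z = [] := by simpa using h3.symm
      have hz : z = [] := (List.append_eq_nil_iff.mp this).2
      subst hz
      exact ⟨[], by simp, by simp, rfl⟩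
    | cons q R' ihR =>
      obtain ⟨k, rfl⟩ : ∃ k', k = k' + 1 := ⟨k - 1, by simp at h1; omega⟩
      have h1' : R'.length ≤ k := by simpa using h1
      have hq : q.reverse = q := h2 q (by simp)
      have h2' : ∀ r ∈ R', r.reverse = r := fun r hr => h2 r (by simp [hr])
      have hR' : PF k R'.flatten := ⟨R', h1', h2', rfl⟩
      rw [List.flatten_cons] at h3
      by_cases hq0 : q = []
      · subst hq0
        rw [List.nil_append] at h3
        exact (ihR k h1' h2' h3).mono (by omega)
      have hql : 0 < q.length := List.length_pos_iff.mpr hq0
      rcases Nat.lt_or_ge q.length p.length with hlt | hge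
      · have e1 : q <+: p := by
          have e2 : q <+: p ++ z := by rw [← h3]; exact List.prefix_append _ _
          exact List.prefix_of_prefix_length_le e2 (List.prefix_append _ _) (by omega)
        obtain ⟨r, hr⟩ := e1
        have hrl : q.length + r.length = p.length := by rw [← hr]; simp
        obtain ⟨t, s, ht, hs, hts⟩ := two_pal q.length q r le_rfl hq (by rw [hr, hp])
        have htsl : t.length + s.length = r.length := by rw [hts]; simp
        rw [← hr, List.append_assoc] at h3
        have h4 := List.append_cancel_left h3
        rw [hts, List.append_assoc] at h4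
        rw [h4] at hR'
        have h5 := ih t (by omega) ht k _ hR'
        exact ih s (by omega) hs _ _ h5
      · have e1 : p <+: q := by
          have e2 : p <+: q ++ R'.flatten := by rw [h3]; exact List.prefix_append _ _
          exact List.prefix_of_prefix_length_le e2 (List.prefix_append _ _) hge
        obtain ⟨r, hr⟩ := e1
        obtain ⟨t, s, ht, hs, hts⟩ := two_pal p.length p r le_rfl hp (by rw [hr, hq])
        rw [← hr, List.append_assoc] at h3
        have h4 := List.append_cancel_left h3
        rw [← h4, hts, List.append_assoc]
        exact PF.cons ht (PF.cons hs hR')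

lemma PF.tails {a b : ℕ} : ∀ {x y : List A}, PF a x → PF b (x ++ y) → PF (a + b) y := by
  intro x y hx hy
  obtain ⟨P, h1, h2, h3⟩ := hx
  induction P generalizing a b x with
  | nil =>
    have : x = [] := by simpa using h3.symm
    subst this
    exact PF.mono (by simpa using hy) (by omega)
  | cons p P' ih =>
    obtain ⟨a, rfl⟩ : ∃ a', a = a' + 1 := ⟨a - 1, by simp at h1; omega⟩
    rw [List.flatten_cons] at h3
    rw [← h3, List.append_assoc] at hy
    have h4 := PF.tail p.length p le_rfl (h2 p (by simp)) _ _ hy
    have h5 := ih (a := a) (b := b + 1) h4 (by simpa using h1) (fun r hr => h2 r (by simp [hr])) rfl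
    exact h5.mono (by omega)

theorem saarela (P Q : List (List A)) (y : List A) (hP : ∀ p ∈ P, p.reverse = p)
    (hQ : ∀ q ∈ Q, q.reverse = q) (h : Q.flatten = P.flatten ++ y) :
    ∃ R : List (List A), R.length ≤ P.length + Q.length ∧ (∀ r ∈ R, r.reverse = r) ∧
      R.flatten = y :=
  PF.tails (x := P.flatten) ⟨P, le_rfl, hP, rfl⟩ ⟨Q, le_rfl, hQ, h⟩

end Pool.Agent.PalLen
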