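import Mathlib
import Pool.Agent.PalLen.Transfer

/-!
A sparse set of cut points which meets thin sets in few points (MP_cacb4b_co, part G).
-/

set_option autoImplicit false

namespace Pool.Agent.PalLen

variable {A : Type*}

lemma cut_eq {u : ℕ → A} {n i : ℕ} (h : i < n) : cut u n (i : ℤ) = Sum.inl (u i) := by
  unfold cut
  rw [if_pos ⟨by omega, by exact_mod_cast h⟩]
  simp

lemma sparse_step {u : ℕ → A} (hu : ¬ ∃ p N : ℕ, 0 < p ∧ ∀ n ≥ N, u (n + p) = u n) (s : ℕ) :
    ∃ t, s < t ∧ ∀ d, 1 ≤ d → d ≤ s → ∃ i, s ≤ i ∧ i + d < t ∧ u (i + d) ≠ u i := by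
  have h1 : ∀ d, 1 ≤ d → ∃ i, s ≤ i ∧ u (i + d) ≠ u i := by
    intro d hd
    by_contra hcon
    push Not at hcon
    exact hu ⟨d, s, hd, fun n hn => hcon n hn⟩
  choose! f hf1 hf2 using h1
  refine ⟨(Finset.range (s + 1)).sup (fun d => f d + d) + s + 1, by omega, fun d hd hds => ?_⟩
  refine ⟨f d, hf1 d hd, ?_, hf2 d hd⟩
  have := Finset.le_sup (f := fun d => f d + d) (Finset.mem_range.mpr (show d < s + 1 by omega))
  omega

theorem sparse {u : ℕ → A} (hu : ¬ ∃ p N : ℕ, 0 < p ∧ ∀ n ≥ N, u (n + p) = u n) (M : ℕ) :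
    ∃ Z : Finset ℕ, Z.card = M ∧ ∀ n : ℕ, (∀ z ∈ Z, z ≤ n) → ∀ h m F, T (cut u n) h m F →
      (F ∩ ((fun z : ℕ => (z : ℤ)) '' (Z : Set ℕ))).encard ≤ ((m * 2 ^ h : ℕ) : ℕ∞) := by
  choose f hf1 hf2 using sparse_step hu
  let z : ℕ → ℕ := fun l => f^[l] 0
  have hzs : ∀ l, z (l + 1) = f (z l) := fun l => Function.iterate_succ_apply' f l 0
  have hmono : StrictMono z := strictMono_nat_of_lt_succ fun l => by rw [hzs]; exact hf1 _
  have hper : ∀ l d, 1 ≤ d → d ≤ z l → ∃ i, z l ≤ i ∧ i + d < z (l + 1) ∧ u (i + d) ≠ u i := by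
    intro l d h1 h2
    rw [hzs]
    exact hf2 _ d h1 h2
  refine ⟨(Finset.range M).image z, ?_, ?_⟩
  · rw [Finset.card_image_of_injective _ hmono.injective, Finset.card_range]
  intro n hn h m F hT
  set Z' : Set ℤ := (fun z : ℕ => (z : ℤ)) '' (((Finset.range M).image z : Finset ℕ) : Set ℕ) with hZ'
  have hZmem : ∀ x : ℤ, x ∈ Z' → ∃ l, l < M ∧ x = (z l : ℤ) := by
    rintro x ⟨y, hy, rfl⟩
    simp only [Finset.coe_image, Set.mem_image, Finset.coe_range, Set.mem_Iio] at hy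
    obtain ⟨l, hl, rfl⟩ := hy
    exact ⟨l, hl, rfl⟩
  have hZn : ∀ l, l < M → z l ≤ n := fun l hl =>
    hn _ (Finset.mem_image_of_mem _ (Finset.mem_range.mpr hl))
  induction hT with
  | point y =>
    refine (Set.encard_le_encard Set.inter_subset_left).trans ?_
    rw [Set.encard_singleton]
    simp
  | sub _ hF hnn ih =>
    refine (Set.encard_le_encard (Set.inter_subset_inter_left _ hF)).trans (ih.trans ?_)
    exact_mod_cast Nat.mul_le_mul_right _ hnn
  | union _ _ ih1 ih2 =>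
    rw [Set.union_inter_distrib_right]
    refine (Set.encard_union_le _ _).trans ((add_le_add ih1 ih2).trans ?_)
    rw [add_mul]
    push_cast
    exact le_rfl
  | lift _ ih =>
    refine ih.trans ?_
    exact_mod_cast Nat.mul_le_mul_left _ (Nat.pow_le_pow_right (by norm_num) (Nat.le_succ _))
  | @piece h m d a b G hM hG hp hm hwin ih =>
    have hm1 : 1 ≤ m := (hwin 0).pos
    have hd := hM.pos
    by_cases hex : ∃ l, l < M ∧ (z l : ℤ) ∈ G
    · -- the largest index
      obtain ⟨l, ⟨hlM, hlG⟩, hmax⟩ : ∃ l, (l < M ∧ (z l : ℤ) ∈ G) ∧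
          ∀ k, (k < M ∧ (z k : ℤ) ∈ G) → k ≤ l := by
        classical
        obtain ⟨l0, hl0⟩ := hex
        have hne : ((Finset.range M).filter (fun l => (z l : ℤ) ∈ G)).Nonempty :=
          ⟨l0, by simp [hl0.1, hl0.2]⟩
        refine ⟨Finset.max' _ hne, ?_, ?_⟩
        · have := Finset.max'_mem _ hne
          simpa using this
        · intro k hk
          exact Finset.le_max' _ _ (by simp [hk.1, hk.2])
      have hsub : G ∩ Z' ⊆ insert (z l : ℤ) ((G ∩ Set.Icc 0 (0 + d)) ∩ Z') := by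
        rintro x ⟨hxG, hxZ⟩
        obtain ⟨k, hk, rfl⟩ := hZmem x hxZ
        have hkl := hmax k ⟨hk, hxG⟩
        rcases hkl.eq_or_lt with rfl | hlt
        · exact Or.inl rfl
        · right
          refine ⟨⟨hxG, ?_⟩, hxZ⟩
          obtain ⟨l', rfl⟩ : ∃ l', l = l' + 1 := ⟨l - 1, by omega⟩
          have h1 : z k ≤ z l' := hmono.monotone (by omega)
          have ha := (hG hxG).1
          have hb := (hG hlG).2
          by_contra hcon
          rw [Set.mem_Icc] at hcon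
          have hdle : d.toNat ≤ z l' := by omega
          obtain ⟨i, hi1, hi2, hi3⟩ := hper l' d.toNat (by omega) hdle
          have hln := hZn (l' + 1) hlM
          have h2 := hM.per (i : ℤ) (by omega) (by omega)
          apply hi3
          have e1 : ((i : ℤ) + d) = ((i + d.toNat : ℕ) : ℤ) := by omega
          rw [e1, cut_eq (by omega), cut_eq (by omega)] at h2
          exact Sum.inl_injective h2
      refine (Set.encard_le_encard hsub).trans ((Set.encard_insert_le _ _).trans ?_)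
      refine (add_le_add_left (ih 0) 1).trans ?_
      have : m * 2 ^ h + 1 ≤ m * 2 ^ (h + 1) := by
        rw [pow_succ]
        have : 1 ≤ m * 2 ^ h := Nat.mul_pos hm1 (by positivity)
        nlinarith
      exact_mod_cast this
    · have : G ∩ Z' = ∅ := by
        ext x
        simp only [Set.mem_inter_iff, Set.mem_empty_iff_false, iff_false, not_and]
        intro hxG hxZ
        obtain ⟨k, hk, rfl⟩ := hZmem x hxZ
        exact hex ⟨k, hk, hxG⟩
      rw [this]
      simp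

/-- the same with finite sets -/
theorem sparse' {u : ℕ → A} (hu : ¬ ∃ p N : ℕ, 0 < p ∧ ∀ n ≥ N, u (n + p) = u n) (M : ℕ) :
    ∃ Z : Finset ℕ, Z.card = M ∧ ∀ n : ℕ, (∀ z ∈ Z, z ≤ n) → ∀ h m F, T (cut u n) h m F →
      ∀ Y : Finset ℕ, Y ⊆ Z → (∀ z ∈ Y, (z : ℤ) ∈ F) → Y.card ≤ m * 2 ^ h := by
  obtain ⟨Z, hZ, hZ2⟩ := sparse hu M
  refine ⟨Z, hZ, fun n hn h m F hT Y hY hYF => ?_⟩
  have h1 := hZ2 n hn h m F hT
  have h2 : (fun z : ℕ => (z : ℤ)) '' (Y : Set ℕ) ⊆
      F ∩ ((fun z : ℕ => (z : ℤ)) '' (Z : Set ℕ)) := by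
    rintro x ⟨y, hy, rfl⟩
    exact ⟨hYF y hy, ⟨y, hY hy, rfl⟩⟩
  have h3 := (Set.encard_le_encard h2).trans h1
  have hinj : Function.Injective (fun z : ℕ => (z : ℤ)) := fun x y h => by
    simpa using h
  rw [hinj.encard_image, Set.encard_coe_eq_coe_finsetCard] at h3
  exact_mod_cast h3

end Pool.Agent.PalLen
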